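import Pool.Agent.RGL.Inn
import Pool.Agent.Lvl.OddR

set_option autoImplicit false
set_option linter.unusedSectionVars false

noncomputable section

/-!
RGL: the level subgroups of the outer automorphism groups of right-angled Artin groups.
-/

namespace Pool.Agent.RGL

open Pool.Agent.VN Pool.Agent.Lvl

/-- `H` is a right-angled Artin group with `N` nodes. -/
def RaagN (H : Type) [Group H] (N : ℕ) : Prop :=
  ∃ G : SimpleGraph (Fin N), Nonempty (H ≃* Raag G)

/-- `H` is a right-angled Artin group with `N` nodes (for example a free group of rank `N`), or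
`N = 2 g` and `H` is the fundamental group of the closed orientable surface of genus `g`. -/
def RaagSurf (H : Type) [Group H] (N : ℕ) : Prop :=
  RaagN H N ∨ ∃ g : ℕ, N = 2 * g ∧ Nonempty (H ≃* CongCL.SurfaceGroup g)

section

variable {H : Type} [Group H] {N : ℕ}

theorem RaagN.gen (h : RaagN H N) : ∃ s : Fin N → H, Subgroup.closure (Set.range s) = ⊤ := by
  obtain ⟨G, ⟨e⟩⟩ := h
  exact ⟨fun i => e.symm (PresentedGroup.of i), closure_of_equiv e
    (PresentedGroup.closure_range_of _)⟩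

theorem RaagN.fg (h : RaagN H N) : Group.FG H := by
  obtain ⟨s, hs⟩ := h.gen
  exact Group.fg_iff.2 ⟨Set.range s, hs, Set.finite_range s⟩

theorem RaagN.dvd (h : RaagN H N) (l : ℕ) (hl : l.Prime) :
    ∃ r, r ≤ N ∧ (level H l).index ∣ ∏ i : Fin r, (l ^ r - l ^ (i : ℕ)) := by
  have := Fact.mk hl
  obtain ⟨s, hs⟩ := h.gen
  obtain ⟨r, hr, hd⟩ := index_level_dvd (l := l) s hs
  exact ⟨r, hr.trans (Fintype.card_fin N).le, hd⟩

theorem RaagN.inner (h : RaagN H N) (φ : MulAut H) (hφ : ∀ x, CC (φ x) x) :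
    ∃ w, ∀ x, φ x = w * x * w⁻¹ := by
  obtain ⟨G, ⟨e⟩⟩ := h
  exact inner_of_equiv e (fun ψ hψ => raag_inner G ψ hψ) φ hφ

theorem RaagN.bounds_out (h : RaagN H N) : LevelBounds (outLevel H) N := by
  intro G _ f hf
  have := h.fg
  have hfin : ∀ m : ℕ, 3 ≤ m → (outLevel H m).FiniteIndex := fun m hm =>
    outLevel_finiteIndex (by omega)
  obtain ⟨h1, h2⟩ := den_main (L := outLevel H) (N := N)
    (fun m hm => atiyah_outLevel (strong_out h.inner hm))
    (fun m => inferInstance) hfin (fun l hl _ => by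
      obtain ⟨r, hr, hd⟩ := h.dvd l hl
      exact ⟨r, hr, index_outLevel_dvd.trans hd⟩) f hf
  exact ⟨fun m hm => have := hfin m hm; comap_finiteIndex _ f, h2, h1⟩

theorem RaagSurf.bounds_out (h : RaagSurf H N) : LevelBounds (outLevel H) N := by
  rcases h with h | h
  · exact h.bounds_out
  · exact SurfN.bounds_out (Or.inr h)

/-- a free group is a right-angled Artin group -/
theorem raagN_free (h : Nonempty (H ≃* FreeGroup (Fin N))) : RaagN H N := by
  obtain ⟨e⟩ := h
  refine ⟨⊥, ⟨e.trans ?_⟩⟩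
  have h1 : {r : FreeGroup (Fin N) | ∃ u v, (⊥ : SimpleGraph (Fin N)).Adj u v ∧
      r = FreeGroup.of u * FreeGroup.of v * (FreeGroup.of u)⁻¹ * (FreeGroup.of v)⁻¹} = ∅ := by
    ext r
    simp
  have h2 : Function.Bijective (PresentedGroup.mk {r : FreeGroup (Fin N) | ∃ u v,
      (⊥ : SimpleGraph (Fin N)).Adj u v ∧
      r = FreeGroup.of u * FreeGroup.of v * (FreeGroup.of u)⁻¹ * (FreeGroup.of v)⁻¹}) := by
    refine ⟨?_, PresentedGroup.mk_surjective _⟩
    rw [injective_iff_map_eq_one]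
    intro x hx
    have h3 : x ∈ Subgroup.normalClosure {r : FreeGroup (Fin N) | ∃ u v,
        (⊥ : SimpleGraph (Fin N)).Adj u v ∧
        r = FreeGroup.of u * FreeGroup.of v * (FreeGroup.of u)⁻¹ * (FreeGroup.of v)⁻¹} :=
      (QuotientGroup.eq_one_iff x).1 hx
    rw [h1, Subgroup.normalClosure_empty] at h3
    exact Subgroup.mem_bot.1 h3
  exact MulEquiv.ofBijective _ h2

end

end Pool.Agent.RGL
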