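import Pool.Agent.RGL.Wrd

set_option autoImplicit false
set_option linter.unusedSectionVars false

noncomputable section

open Classical

/-!
PACKAGE RGL-ALG. A universal algebra with a trace (only Mathlib; no graph).

Let `F = MonoidAlgebra ℚ (FreeMonoid (Fin L))` and let `T0 : F →ₗ[ℚ] ℚ` be the linear map with
`T0 (single W 1) = f W.toList`. Then `T0 (a * b) = T0 (b * a)` (`MonoidAlgebra.induction_linear` for
`a` and `b`, `single_mul_single`, `hf`). Let `c` be the relation
`c x x' ↔ ∀ a, T0 (a * x) = T0 (a * x')`. It is a `RingCon F`: equivalence and addition are clear;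
multiplication: `T0 (a * (x * y)) = T0 ((y * a) * x) = T0 ((y * a) * x') = T0 ((a * x') * y) =
T0 ((a * x') * y') = T0 (a * (x' * y'))`. Let `B = c.Quotient` (a ring and a `ℚ`-algebra), `Z i` the
class of `single (FreeMonoid.of i) 1`, and `T` the map induced by `T0` (`Quotient.lift`; `c x x'`
with `a = 1` gives `T0 x = T0 x'`). The last two claims: `c x x'` for `x = Z i Z j`, `x' = Z j Z i`
or `x' = 0`: induction on `a` (linear, so `a = single W r`), and then it is `hR`, `hQ`.
-/

namespace Pool.Agent.RGL

open MonoidAlgebra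

section

variable {L : ℕ}

/-- the linear map with the values `f` -/
private def tz (f : List (Fin L) → ℚ) : MonoidAlgebra ℚ (FreeMonoid (Fin L)) →ₗ[ℚ] ℚ :=
  (Finsupp.linearCombination ℚ fun W : FreeMonoid (Fin L) => f (FreeMonoid.toList W)).comp
    (coeffLinearEquiv ℚ).toLinearMap

private lemma tz_single (f : List (Fin L) → ℚ) (W : FreeMonoid (Fin L)) (c : ℚ) :
    tz f (single W c) = c * f (FreeMonoid.toList W) := by
  unfold tz
  rw [LinearMap.comp_apply]
  have h : (coeffLinearEquiv (S := ℚ) (M := FreeMonoid (Fin L)) ℚ).toLinearMap (single W c) =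
      Finsupp.single W c := rfl
  rw [h, Finsupp.linearCombination_single, smul_eq_mul]

private lemma tz_comm {f : List (Fin L) → ℚ} (hf : ∀ A B, f (A ++ B) = f (B ++ A))
    (a b : MonoidAlgebra ℚ (FreeMonoid (Fin L))) : tz f (a * b) = tz f (b * a) := by
  induction a using MonoidAlgebra.induction_linear with
  | zero => rw [zero_mul, mul_zero]
  | add a a' ha ha' => rw [add_mul, mul_add, map_add, map_add, ha, ha']
  | single W c =>
    induction b using MonoidAlgebra.induction_linear with
    | zero => rw [zero_mul, mul_zero]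
    | add b b' hb hb' => rw [add_mul, mul_add, map_add, map_add, hb, hb']
    | single W' c' =>
      rw [single_mul_single, single_mul_single, tz_single, tz_single, mul_comm c' c,
        FreeMonoid.toList_mul, FreeMonoid.toList_mul, hf]

/-- the radical of the trace form, as a congruence -/
private def tc {f : List (Fin L) → ℚ} (hf : ∀ A B, f (A ++ B) = f (B ++ A)) :
    RingCon (MonoidAlgebra ℚ (FreeMonoid (Fin L))) where
  r x x' := ∀ a, tz f (a * x) = tz f (a * x')
  iseqv := ⟨fun _ _ => rfl, fun h a => (h a).symm, fun h h' a => (h a).trans (h' a)⟩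
  add' := by
    intro w x y z h h' a
    rw [mul_add, mul_add, map_add, map_add, h a, h' a]
  mul' := by
    intro w x y z h h' a
    rw [← mul_assoc, tz_comm hf, ← mul_assoc, h (y * a), mul_assoc, tz_comm hf, h' (a * x),
      mul_assoc]

private lemma tc_def {f : List (Fin L) → ℚ} (hf : ∀ A B, f (A ++ B) = f (B ++ A))
    (x x' : MonoidAlgebra ℚ (FreeMonoid (Fin L))) :
    tc hf x x' ↔ ∀ a, tz f (a * x) = tz f (a * x') := Iff.rfl

end

theorem exists_trace {L : ℕ} (f : List (Fin L) → ℚ) (R : Fin L → Fin L → Prop)
    (Q : Fin L → Fin L → Prop) (hf : ∀ A B, f (A ++ B) = f (B ++ A))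
    (hR : ∀ A i j, R i j → f (A ++ [i, j]) = f (A ++ [j, i]))
    (hQ : ∀ A i j, Q i j → f (A ++ [i, j]) = 0) :
    ∃ (B : Type) (_ : Ring B) (_ : Algebra ℚ B) (Z : Fin L → B) (T : B →ₗ[ℚ] ℚ),
      (∀ a b, T (a * b) = T (b * a)) ∧ (∀ W : List (Fin L), T (W.map Z).prod = f W) ∧
      (∀ i j, R i j → Z i * Z j = Z j * Z i) ∧ ∀ i j, Q i j → Z i * Z j = 0 := by
  let z : Fin L → MonoidAlgebra ℚ (FreeMonoid (Fin L)) := fun i => single (FreeMonoid.of i) 1
  have hz : ∀ W : List (Fin L), (W.map z).prod = single (FreeMonoid.ofList W) 1 := by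
    intro W
    induction W with
    | nil => rfl
    | cons i W ih =>
      rw [List.map_cons, List.prod_cons, ih]
      show single (FreeMonoid.of i) (1 : ℚ) * single (FreeMonoid.ofList W) 1 = _
      rw [single_mul_single, one_mul]
      rfl
  have hzz : ∀ (i j : Fin L) (W : FreeMonoid (Fin L)) (c : ℚ),
      tz f (single W c * (z i * z j)) = c * f (FreeMonoid.toList W ++ [i, j]) := by
    intro i j W c
    show tz f (single W c * (single (FreeMonoid.of i) 1 * single (FreeMonoid.of j) 1)) = _
    rw [single_mul_single, single_mul_single, tz_single, one_mul, mul_one]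
    rfl
  let mk : MonoidAlgebra ℚ (FreeMonoid (Fin L)) →+* (tc hf).Quotient := (tc hf).mk'
  let T : (tc hf).Quotient →ₗ[ℚ] ℚ :=
    { toFun := Quotient.lift (fun x => tz f x) fun x x' h => by
        have h1 := (tc_def hf x x').1 h 1
        rwa [one_mul, one_mul] at h1
      map_add' := by
        rintro ⟨x⟩ ⟨y⟩
        exact map_add (tz f) x y
      map_smul' := by
        rintro c ⟨x⟩
        exact map_smul (tz f) c x }
  have hT : ∀ x, T (mk x) = tz f x := fun x => rfl
  refine ⟨(tc hf).Quotient, inferInstance, inferInstance, fun i => mk (z i), T, ?_, ?_, ?_, ?_⟩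
  · rintro ⟨a⟩ ⟨b⟩
    exact tz_comm hf a b
  · intro W
    have h1 : (W.map fun i => mk (z i)).prod = mk (W.map z).prod := by
      rw [map_list_prod, List.map_map]
      rfl
    rw [h1, hT, hz, tz_single, one_mul]
    rfl
  · intro i j hij
    rw [← map_mul, ← map_mul]
    refine (RingCon.eq _).2 ?_
    rw [tc_def]
    intro a
    induction a using MonoidAlgebra.induction_linear with
    | zero => rw [zero_mul, zero_mul]
    | add a a' ha ha' => rw [add_mul, add_mul, map_add, map_add, ha, ha']
    | single W c => rw [hzz, hzz, hR _ i j hij]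
  · intro i j hij
    rw [← map_mul, ← map_zero mk]
    refine (RingCon.eq _).2 ?_
    rw [tc_def]
    intro a
    induction a using MonoidAlgebra.induction_linear with
    | zero => rw [zero_mul, zero_mul]
    | add a a' ha ha' => rw [add_mul, add_mul, map_add, map_add, ha, ha']
    | single W c => rw [hzz, hQ _ i j hij, mul_zero, mul_zero, map_zero]

end Pool.Agent.RGL
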