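import Pool.Agent.RGL.DblD

set_option autoImplicit false
set_option linter.unusedSectionVars false

noncomputable section

open Classical

/-!
PACKAGE RGL-DBLB. The word `a w b w⁻¹` is cyclically reduced (only Mathlib and RGL/DblD).

Let `k = w.length` and let `x p` be the letter of `w` at `p`, `0 ≤ p < k`. The letter `y p` of
`dbw a b w` (length `2 k + 2`) at `p` is: `a` for `p = 0`; `x (p - 1)` for `1 ≤ p ≤ k`; `b` for
`p = k + 1`; `x (2 k + 1 - p)` for `k + 2 ≤ p ≤ 2 k + 1`. (First prove this as an auxiliary lemma,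
`List.getElem_cons`, `List.getElem_append`, `List.getElem_reverse`, `List.getElem_map`, `omega`.)
For `1 ≤ p ≤ 2 k + 1`, the mirror image of `p` is `p' = 2 k + 2 - p`; it has the same letter. It is
convenient to state `Dred` and the goal for natural numbers `p` with bounds.
Let `i < j` with `y i = y j =: v`.
*Inside* (find `m` with `i < m < j`, `y m` not adjacent to `v`):
 `i = 0` (`v = a`): `j ≠ k + 1` because `a ≠ b`. `j ≤ k`: `lef` for `j` (`a` is in the star of `a`).
 `j ≥ k + 2`: `lef` for `j'` gives `m < j'` in `w`, and `j' < j`.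
 `1 ≤ i ≤ k`: `j ≤ k`: `mid`. `j = k + 1` (`v = b`): `rig` for `i`. `j ≥ k + 2`: if `v` is in the
 star of `b`: `rig` for `i`; otherwise `m = k + 1` (`b` is not adjacent to `v`).
 `i = k + 1` (`v = b`), `j ≥ k + 2`: `rig` for `j'` gives `m > j'` in `w`; its mirror image is in
 `[k + 2, j)`.
 `i ≥ k + 2`: the mirror image of `mid` for `j' < i'`.
*Outside* (find `m < i` or `m > j`, `y m` not adjacent to `v`); note that `v` is not adjacent to
itself, so a further position of `v` outside is enough: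
 `i = 0`: `1 ≤ j ≤ k`: `m = j' > j`. `j ≥ k + 2`: `lef` for `j'` gives `m < j'` in `w`, whose mirror
 image is `> j`.
 `1 ≤ i ≤ k`: `j ≤ k`: `m = j'`. `j = k + 1`: `m = i'`. `j ≥ k + 2`: if `i + j < 2 k + 2` then
 `m = i' > j`; if `i + j > 2 k + 2` then `m = j' < i`; if `j = i'`: if `v` is in the star of `a`
 then `lef` for `i`, otherwise `m = 0` (`a` is not adjacent to `v`).
 `i = k + 1`: `m = j' < i`. `i ≥ k + 2`: `m = j' < i`.
-/

namespace Pool.Agent.RGL

variable {V : Type} (G : SimpleGraph V)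

private theorem nat_form {a b : V} (hab : a ≠ b) {k : ℕ} {X Y : ℕ → V}
    (hmid : ∀ i j, i < j → j < k → X i = X j → ∃ m, i < m ∧ m < j ∧ ¬ G.Adj (X m) (X i))
    (hlef : ∀ i, i < k → X i ∈ star G a → ∃ m, m < i ∧ ¬ G.Adj (X m) (X i))
    (hrig : ∀ i, i < k → X i ∈ star G b → ∃ m, i < m ∧ m < k ∧ ¬ G.Adj (X m) (X i))
    (hY0 : Y 0 = a) (hY1 : ∀ p, p < k → Y (p + 1) = X p) (hYb : Y (k + 1) = b)
    (hY2 : ∀ p, p < k → Y (2 * k + 1 - p) = X p) (i j : ℕ) (hij : i < j) (hj : j < 2 * k + 2)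
    (h : Y i = Y j) :
    (∃ m, i < m ∧ m < j ∧ ¬ G.Adj (Y m) (Y i)) ∧
      ∃ m, m < 2 * k + 2 ∧ (m < i ∨ j < m) ∧ ¬ G.Adj (Y m) (Y i) := by
  have hc : ∀ p, p < 2 * k + 2 → p = 0 ∨ (∃ q, q < k ∧ p = q + 1) ∨ p = k + 1 ∨
      ∃ q, q < k ∧ p = 2 * k + 1 - q := by
    intro p hp
    rcases Nat.lt_trichotomy p (k + 1) with h1 | h1 | h1
    · rcases Nat.eq_zero_or_pos p with h2 | h2
      · exact Or.inl h2
      · exact Or.inr (Or.inl ⟨p - 1, by omega, by omega⟩)
    · exact Or.inr (Or.inr (Or.inl h1))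
    · exact Or.inr (Or.inr (Or.inr ⟨2 * k + 1 - p, by omega, by omega⟩))
  have hstar : ∀ {c v : V}, v ∉ star G c → ¬ G.Adj c v := fun hv h1 => hv (Or.inr h1.symm)
  have hirr : ∀ {u v : V}, u = v → ¬ G.Adj u v := by
    rintro u _ rfl
    exact G.irrefl
  rcases hc i (by omega) with rfl | ⟨p, hp, rfl⟩ | rfl | ⟨p, hp, rfl⟩
  · rcases hc j hj with rfl | ⟨q, hq, rfl⟩ | rfl | ⟨q, hq, rfl⟩
    · omega
    · rw [hY0, hY1 q hq] at h
      obtain ⟨m, hm, hn⟩ := hlef q hq (Or.inl h.symm)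
      rw [hY0, h]
      refine ⟨⟨m + 1, by omega, by omega, ?_⟩, 2 * k + 1 - q, by omega, by omega, ?_⟩
      · rwa [hY1 m (by omega)]
      · exact hirr (hY2 q hq)
    · rw [hY0, hYb] at h
      exact absurd h hab
    · rw [hY0, hY2 q hq] at h
      obtain ⟨m, hm, hn⟩ := hlef q hq (Or.inl h.symm)
      rw [hY0, h]
      refine ⟨⟨m + 1, by omega, by omega, ?_⟩, 2 * k + 1 - m, by omega, by omega, ?_⟩
      · rwa [hY1 m (by omega)]
      · rwa [hY2 m (by omega)]
  · rcases hc j hj with rfl | ⟨q, hq, rfl⟩ | rfl | ⟨q, hq, rfl⟩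
    · omega
    · rw [hY1 p hp, hY1 q hq] at h
      obtain ⟨m, hm1, hm2, hn⟩ := hmid p q (by omega) hq h
      rw [hY1 p hp]
      refine ⟨⟨m + 1, by omega, by omega, ?_⟩, 2 * k + 1 - q, by omega, by omega, ?_⟩
      · rwa [hY1 m (by omega)]
      · exact hirr ((hY2 q hq).trans h.symm)
    · rw [hY1 p hp, hYb] at h
      obtain ⟨m, hm1, hm2, hn⟩ := hrig p hp (Or.inl h)
      rw [hY1 p hp]
      refine ⟨⟨m + 1, by omega, by omega, ?_⟩, 2 * k + 1 - p, by omega, by omega, ?_⟩
      · rwa [hY1 m (by omega)]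
      · exact hirr (hY2 p hp)
    · rw [hY1 p hp, hY2 q hq] at h
      rw [hY1 p hp]
      refine ⟨?_, ?_⟩
      · by_cases hb : X p ∈ star G b
        · obtain ⟨m, hm1, hm2, hn⟩ := hrig p hp hb
          refine ⟨m + 1, by omega, by omega, ?_⟩
          rwa [hY1 m (by omega)]
        · refine ⟨k + 1, by omega, by omega, ?_⟩
          rw [hYb]
          exact hstar hb
      · rcases Nat.lt_trichotomy p q with h1 | h1 | h1
        · exact ⟨2 * k + 1 - p, by omega, by omega, hirr (hY2 p hp)⟩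
        · by_cases ha : X p ∈ star G a
          · obtain ⟨m, hm, hn⟩ := hlef p hp ha
            refine ⟨m + 1, by omega, by omega, ?_⟩
            rwa [hY1 m (by omega)]
          · refine ⟨0, by omega, by omega, ?_⟩
            rw [hY0]
            exact hstar ha
        · exact ⟨q + 1, by omega, by omega, hirr ((hY1 q hq).trans h.symm)⟩
  · rcases hc j hj with rfl | ⟨q, hq, rfl⟩ | rfl | ⟨q, hq, rfl⟩
    · omega
    · omega
    · omega
    · rw [hYb, hY2 q hq] at h
      obtain ⟨m, hm1, hm2, hn⟩ := hrig q hq (Or.inl h.symm)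
      rw [hYb, h]
      refine ⟨⟨2 * k + 1 - m, by omega, by omega, ?_⟩, q + 1, by omega, by omega, ?_⟩
      · rwa [hY2 m (by omega)]
      · exact hirr (hY1 q hq)
  · rcases hc j hj with rfl | ⟨q, hq, rfl⟩ | rfl | ⟨q, hq, rfl⟩
    · omega
    · omega
    · omega
    · rw [hY2 p hp, hY2 q hq] at h
      obtain ⟨m, hm1, hm2, hn⟩ := hmid q p (by omega) hp h.symm
      rw [hY2 p hp, h]
      refine ⟨⟨2 * k + 1 - m, by omega, by omega, ?_⟩, q + 1, by omega, by omega, ?_⟩
      · rwa [hY2 m (by omega)]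
      · exact hirr (hY1 q hq)

theorem dbw_cycRed {a b : V} (hab : a ≠ b) {w : List (V × ℤ)} (hw : Dred G a b w) :
    CycRed G fun i : Fin (dbw a b w).length => ((dbw a b w).get i).1 := by
  have hlen : (dbw a b w).length = 2 * w.length + 2 := by
    simp only [dbw, List.length_cons, List.length_append, List.length_reverse, List.length_map]
    omega
  let X : ℕ → V := fun p => if h : p < w.length then (w[p]).1 else a
  let Y : ℕ → V := fun p => if h : p < (dbw a b w).length then ((dbw a b w)[p]).1 else a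
  have hX : ∀ p (hp : p < w.length), X p = (w[p]).1 := fun p hp => dif_pos hp
  have hY : ∀ p (hp : p < (dbw a b w).length), Y p = ((dbw a b w)[p]).1 := fun p hp => dif_pos hp
  have key := nat_form (G := G) hab (k := w.length) (X := X) (Y := Y) ?_ ?_ ?_ ?_ ?_ ?_ ?_
  · intro i j hij h
    have hi := i.2
    have hj := j.2
    have e1 : ((dbw a b w).get i).1 = Y i := (hY i hi).symm
    have e2 : ((dbw a b w).get j).1 = Y j := (hY j hj).symm
    obtain ⟨⟨m, hm1, hm2, hn⟩, m', hm3, hm4, hn'⟩ := key i j hij (by omega)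
      (by rw [← e1, ← e2]; exact h)
    refine ⟨⟨⟨m, by omega⟩, hm1, hm2, ?_⟩, ⟨m', by omega⟩, hm4, ?_⟩
    · show ¬ G.Adj ((dbw a b w)[m]).1 ((dbw a b w).get i).1
      rwa [← hY m (by omega), e1]
    · show ¬ G.Adj ((dbw a b w)[m']).1 ((dbw a b w).get i).1
      rwa [← hY m' (by omega), e1]
  · intro i j hij hj h
    rw [hX i (by omega), hX j hj] at h
    obtain ⟨m, hm1, hm2, hn⟩ := hw.mid ⟨i, by omega⟩ ⟨j, hj⟩ hij h
    refine ⟨m, hm1, hm2, ?_⟩
    rwa [hX i (by omega), hX m m.2]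
  · intro i hi h
    rw [hX i hi] at h
    obtain ⟨m, hm1, hn⟩ := hw.lef ⟨i, hi⟩ h
    refine ⟨m, hm1, ?_⟩
    rwa [hX i hi, hX m m.2]
  · intro i hi h
    rw [hX i hi] at h
    obtain ⟨m, hm1, hn⟩ := hw.rig ⟨i, hi⟩ h
    refine ⟨m, hm1, m.2, ?_⟩
    rwa [hX i hi, hX m m.2]
  · rw [hY 0 (by omega)]
    rfl
  · intro p hp
    rw [hY (p + 1) (by omega), hX p hp]
    simp only [dbw, List.getElem_cons_succ]
    rw [List.getElem_append_left hp]
  · rw [hY (w.length + 1) (by omega)]
    simp only [dbw, List.getElem_cons_succ]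
    rw [List.getElem_append_right (le_refl _)]
    simp
  · intro p hp
    rw [hY (2 * w.length + 1 - p) (by omega), hX p hp]
    have e : ∃ r, 2 * w.length + 1 - p = w.length + (r + 1) + 1 ∧ r = w.length - 1 - p :=
      ⟨w.length - 1 - p, by omega, rfl⟩
    obtain ⟨r, hr1, hr2⟩ := e
    simp only [dbw, hr1, List.getElem_cons_succ]
    rw [List.getElem_append_right (by omega)]
    have e2 : w.length + (r + 1) - w.length = r + 1 := by omega
    simp only [e2, List.getElem_cons_succ, List.getElem_reverse, List.getElem_map,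
      List.length_map]
    have e3 : w.length - 1 - r = p := by omega
    simp only [e3]

end Pool.Agent.RGL
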