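import Pool.Agent.RGL.Defs

set_option autoImplicit false
set_option linter.unusedSectionVars false

noncomputable section

open Classical

/-!
PACKAGE RGL-EVL. Expansion of products (only Mathlib; no graph).

Write `S v = ssum y Z v`. Let `D n` be the span of all `(W.map Z).prod` with `W.length < n`. Then
`D n ≤ D (n + 1)`, `S v * x ∈ D (n + 1)` for `x ∈ D n` (`Finset.sum_mul`, `Submodule.sum_mem`,
`Submodule.span_induction`, `Z i * (W.map Z).prod = ((i :: W).map Z).prod`).
By induction on `E` let `P = (E.map fun z => 1 + z.2 • S z.1).prod`, `Q = (E.map fun z => S z.1).prod`,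
`c = (E.map fun z => z.2).prod`, `n = E.length`: claim `P ∈ D (n + 1)` and `P - c • Q ∈ D n`.
Step: `(1 + c' S) P - c' c S Q = P + c' S (P - c Q)`; `P ∈ D (n + 1)`, `S (P - c Q) ∈ D (n + 1)`.
`T` vanishes on `D L`. So `eval_lt` and `eval_top`.
* `eval_pos`: let `C` be the additive submonoid generated by all `(W.map Z).prod`; `T x ≥ 0` for
  `x ∈ C` (`AddSubmonoid.closure_induction`), `C` is closed under products (or only: under left
  multiplication by `Z i`). By induction on the list `I`: `(I.map fun i => S (y i)).prod ∈ C` and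
  `(I.map fun i => S (y i)).prod - (I.map Z).prod ∈ C`. Step: `S (y i) = Z i + R i`, where `R i ∈ C`
  is the sum of the other terms (`Finset.sum_erase_add`, or write the sum as the term at `i` plus
  the sum over `Finset.univ.erase i`), and `S A - Z A' = R A + Z (A - A')`. So
  `T (product of the S) ≥ T (product of the Z) = 1` for `I = List.finRange L`.
-/

namespace Pool.Agent.RGL

variable {V : Type} {L : ℕ} (y : Fin L → V) {B : Type} [Ring B] [Algebra ℚ B] (Z : Fin L → B)
  (T : B →ₗ[ℚ] ℚ)

/-- the span of the products of less than `n` of the `Z i` -/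
private def Dn (n : ℕ) : Submodule ℚ B :=
  Submodule.span ℚ {x | ∃ W : List (Fin L), W.length < n ∧ x = (W.map Z).prod}

private theorem Dn_mono {n m : ℕ} (h : n ≤ m) : Dn Z n ≤ Dn Z m :=
  Submodule.span_mono fun _ ⟨W, hW, hx⟩ => ⟨W, lt_of_lt_of_le hW h, hx⟩

private theorem ssum_mul_mem (v : V) {n : ℕ} {x : B} (hx : x ∈ Dn Z n) :
    ssum y Z v * x ∈ Dn Z (n + 1) := by
  unfold Dn at hx
  induction hx using Submodule.span_induction with
  | mem x hx =>
    obtain ⟨W, hW, rfl⟩ := hx
    unfold ssum
    rw [Finset.sum_mul]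
    refine Submodule.sum_mem _ fun i _ => ?_
    by_cases h : y i = v
    · rw [if_pos h]
      exact Submodule.subset_span ⟨i :: W, by simpa using hW, by simp⟩
    · rw [if_neg h, zero_mul]
      exact Submodule.zero_mem _
  | zero =>
    rw [mul_zero]
    exact Submodule.zero_mem _
  | add a b _ _ ha hb =>
    rw [mul_add]
    exact Submodule.add_mem _ ha hb
  | smul r a _ ha =>
    rw [mul_smul_comm]
    exact Submodule.smul_mem _ _ ha

private theorem expand (E : List (V × ℤ)) :
    (E.map fun z => 1 + (z.2 : ℚ) • ssum y Z z.1).prod ∈ Dn Z (E.length + 1) ∧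
    (E.map fun z => 1 + (z.2 : ℚ) • ssum y Z z.1).prod -
      (E.map fun z => (z.2 : ℚ)).prod • (E.map fun z => ssum y Z z.1).prod ∈ Dn Z E.length := by
  induction E with
  | nil =>
    constructor
    · exact Submodule.subset_span ⟨[], by simp, by simp⟩
    · simp
  | cons z E ih =>
    obtain ⟨h1, h2⟩ := ih
    simp only [List.map_cons, List.prod_cons, List.length_cons]
    constructor
    · rw [add_mul, one_mul, smul_mul_assoc]
      exact Submodule.add_mem _ (Dn_mono Z (Nat.le_succ _) h1)
        (Submodule.smul_mem _ _ (ssum_mul_mem y Z z.1 h1))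
    · have h3 : (1 + (z.2 : ℚ) • ssum y Z z.1) *
          (E.map fun z => 1 + (z.2 : ℚ) • ssum y Z z.1).prod -
          ((z.2 : ℚ) * (E.map fun z => (z.2 : ℚ)).prod) •
            (ssum y Z z.1 * (E.map fun z => ssum y Z z.1).prod) =
          (E.map fun z => 1 + (z.2 : ℚ) • ssum y Z z.1).prod + (z.2 : ℚ) • (ssum y Z z.1 *
          ((E.map fun z => 1 + (z.2 : ℚ) • ssum y Z z.1).prod -
            (E.map fun z => (z.2 : ℚ)).prod • (E.map fun z => ssum y Z z.1).prod)) := by
        rw [add_mul, one_mul, smul_mul_assoc, mul_sub, smul_sub, mul_smul_comm, smul_smul,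
          add_sub_assoc]
      rw [h3]
      exact Submodule.add_mem _ h1 (Submodule.smul_mem _ _ (ssum_mul_mem y Z z.1 h2))

private theorem vanish (h0 : ∀ W : List (Fin L), W.length < L → T (W.map Z).prod = 0) {x : B}
    (hx : x ∈ Dn Z L) : T x = 0 := by
  unfold Dn at hx
  induction hx using Submodule.span_induction with
  | mem x hx =>
    obtain ⟨W, hW, rfl⟩ := hx
    exact h0 W hW
  | zero => exact map_zero T
  | add a b _ _ ha hb => rw [map_add, ha, hb, add_zero]
  | smul r a _ ha => rw [map_smul, ha, smul_zero]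

theorem eval_lt (h0 : ∀ W : List (Fin L), W.length < L → T (W.map Z).prod = 0)
    (E : List (V × ℤ)) (hE : E.length < L) :
    T (E.map fun z => 1 + (z.2 : ℚ) • ssum y Z z.1).prod = 0 :=
  vanish Z T h0 (Dn_mono Z hE (expand y Z E).1)

theorem eval_top (h0 : ∀ W : List (Fin L), W.length < L → T (W.map Z).prod = 0)
    (E : List (V × ℤ)) (hE : E.length = L) :
    T (E.map fun z => 1 + (z.2 : ℚ) • ssum y Z z.1).prod =
      (E.map fun z => (z.2 : ℚ)).prod * T (E.map fun z => ssum y Z z.1).prod := by
  have h1 := vanish Z T h0 (Dn_mono Z hE.le (expand y Z E).2)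
  rw [map_sub, map_smul, smul_eq_mul, sub_eq_zero] at h1
  exact h1

/-- the sums of the products of the `Z i` -/
private def Cn : AddSubmonoid B := AddSubmonoid.closure {x | ∃ W : List (Fin L), x = (W.map Z).prod}

private theorem mul_Cn (i : Fin L) {x : B} (hx : x ∈ Cn Z) : Z i * x ∈ Cn Z := by
  unfold Cn at hx
  induction hx using AddSubmonoid.closure_induction with
  | mem x hx =>
    obtain ⟨W, rfl⟩ := hx
    exact AddSubmonoid.subset_closure ⟨i :: W, by simp⟩
  | zero =>
    rw [mul_zero]
    exact AddSubmonoid.zero_mem _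
  | add a b _ _ ha hb =>
    rw [mul_add]
    exact AddSubmonoid.add_mem _ ha hb

private theorem rest_Cn (v : V) (i : Fin L) {x : B} (hx : x ∈ Cn Z) :
    (∑ j ∈ Finset.univ.erase i, if y j = v then Z j else 0) * x ∈ Cn Z := by
  rw [Finset.sum_mul]
  refine AddSubmonoid.sum_mem _ fun j _ => ?_
  by_cases h : y j = v
  · rw [if_pos h]
    exact mul_Cn Z j hx
  · rw [if_neg h, zero_mul]
    exact AddSubmonoid.zero_mem _

private theorem ssum_eq (i : Fin L) : ssum y Z (y i) = Z i +
    ∑ j ∈ Finset.univ.erase i, if y j = y i then Z j else 0 := by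
  unfold ssum
  rw [← Finset.add_sum_erase Finset.univ _ (Finset.mem_univ i), if_pos rfl]

private theorem prods_Cn (I : List (Fin L)) :
    (I.map fun i => ssum y Z (y i)).prod ∈ Cn Z ∧
    (I.map fun i => ssum y Z (y i)).prod - (I.map Z).prod ∈ Cn Z := by
  induction I with
  | nil =>
    constructor
    · exact AddSubmonoid.subset_closure ⟨[], by simp⟩
    · simp
  | cons i I ih =>
    obtain ⟨h1, h2⟩ := ih
    simp only [List.map_cons, List.prod_cons]
    rw [ssum_eq]
    constructor
    · rw [add_mul]
      exact AddSubmonoid.add_mem _ (mul_Cn Z i h1) (rest_Cn y Z (y i) i h1)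
    · have h3 : (Z i + ∑ j ∈ Finset.univ.erase i, if y j = y i then Z j else 0) *
          (I.map fun i => ssum y Z (y i)).prod - Z i * (I.map Z).prod =
          (∑ j ∈ Finset.univ.erase i, if y j = y i then Z j else 0) *
            (I.map fun i => ssum y Z (y i)).prod +
          Z i * ((I.map fun i => ssum y Z (y i)).prod - (I.map Z).prod) := by
        rw [add_mul, mul_sub]
        abel
      rw [h3]
      exact AddSubmonoid.add_mem _ (rest_Cn y Z (y i) i h1) (mul_Cn Z i h2)

theorem eval_pos (hp : ∀ W : List (Fin L), 0 ≤ T (W.map Z).prod)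
    (h1 : T ((List.finRange L).map Z).prod = 1) :
    1 ≤ T ((List.finRange L).map fun i => ssum y Z (y i)).prod := by
  have h2 : ∀ x ∈ Cn Z, 0 ≤ T x := by
    intro x hx
    unfold Cn at hx
    induction hx using AddSubmonoid.closure_induction with
    | mem x hx =>
      obtain ⟨W, rfl⟩ := hx
      exact hp W
    | zero => rw [map_zero]
    | add a b _ _ ha hb =>
      rw [map_add]
      exact add_nonneg ha hb
  have h3 := h2 _ (prods_Cn y Z (List.finRange L)).2
  rw [map_sub, h1, sub_nonneg] at h3
  exact h3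

end Pool.Agent.RGL
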