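import Pool.Agent.RGL.Defs
import Pool.Agent.Lvl.AugI

set_option autoImplicit false
set_option linter.unusedSectionVars false

noncomputable section

open Classical

/-!
PACKAGE RGL-REP. The representation of the right-angled Artin group.

Write `S v = ssum y Z v`. `S v * S v = 0` (`Finset.sum_mul_sum`; if `y i = v` and `y j = v` then
`Z i * Z j = 0` by `hQ`) and `S u * S v = S v * S u` if `G.Adj u v` (`hR`).
Let `U v : Bˣ` have the value `1 + S v` and the inverse `1 - S v`. `PresentedGroup.toGroup` gives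
`Raag G →* Bˣ` (the relations hold: `U u` and `U v` commute if `u`, `v` are adjacent), and `Θ` is
its composition with `Units.coeHom B`.
* `Θ (gn G v ^ n) = 1 + n S v`: for natural `n` by induction (`S v * S v = 0`); for `-n`: the value of
  the inverse of a unit with the value `1 + n S v` is `1 - n S v` (`Units.inv_eq_of_mul_eq_one...`).
* Let `D n` be the span of all `(W.map Z).prod` with `n ≤ W.length`; `D m * D n ≤ D (m + n)`
  (`Submodule.span_mul_span`), `D (n + 1) ≤ D n`, `1 ∈ D 0`, `S v ∈ D 1`.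
* For every `g`: `Θ g - 1 ∈ D 1` and `Θ g⁻¹ - 1 ∈ D 1`: the set of these `g` contains the generators
  (`1 ± S v - 1`) and is closed under inverses and products
  (`g h - 1 = (g - 1) (h - 1) + (g - 1) + (h - 1)`); `PresentedGroup.closure_range_of`,
  `Subgroup.closure_induction`.
* `F = MonoidAlgebra.lift ℚ B (Raag G) Θ` maps `Fil ℚ (Raag G) n` into `D n`: `n = 0` by linearity
  (`MonoidAlgebra.induction_linear`), the step by `fil_succ_le_of` (Lvl/AugI). Compare
  `not_cc_of_formal` in Pool/Agent/Lvl/Formal.lean: exactly this scheme.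
* `T ∘ F` vanishes on `comQ` (`Submodule.span_induction`, `hT`) and on `Fil (L + 1)` (`h0`). So if
  `CC h h'` then, with `n = L + 1` in its definition, `T (Θ h) - T (Θ h') = 0`.
-/

namespace Pool.Agent.RGL

open MonoidAlgebra Pool.Agent.Lvl

/-- the span of the products of at least `n` of the `Z i` -/
private def dsub {B : Type} [Ring B] [Algebra ℚ B] {L : ℕ} (Z : Fin L → B) (n : ℕ) :
    Submodule ℚ B :=
  Submodule.span ℚ {x | ∃ W : List (Fin L), n ≤ W.length ∧ x = (W.map Z).prod}

section aux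

variable {B : Type} [Ring B] [Algebra ℚ B] {L : ℕ} (Z : Fin L → B)

private lemma dsub_anti {m n : ℕ} (h : m ≤ n) : dsub Z n ≤ dsub Z m := by
  unfold dsub
  apply Submodule.span_mono
  rintro x ⟨W, hW, rfl⟩
  exact ⟨W, le_trans h hW, rfl⟩

private lemma dsub_mul {m n : ℕ} {a b : B} (ha : a ∈ dsub Z m) (hb : b ∈ dsub Z n) :
    a * b ∈ dsub Z (m + n) := by
  have h := Submodule.mul_mem_mul ha hb
  unfold dsub at h ⊢
  rw [Submodule.span_mul_span] at h
  refine Submodule.span_mono ?_ h
  rintro x hx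
  rw [Set.mem_mul] at hx
  obtain ⟨_, ⟨W, hW, rfl⟩, _, ⟨W', hW', rfl⟩, rfl⟩ := hx
  refine ⟨W ++ W', ?_, ?_⟩
  · rw [List.length_append]
    omega
  · rw [List.map_append, List.prod_append]

private lemma one_mem_dsub : (1 : B) ∈ dsub Z 0 :=
  Submodule.subset_span ⟨[], Nat.zero_le _, rfl⟩

private lemma ssum_mem {V : Type} (y : Fin L → V) (v : V) : ssum y Z v ∈ dsub Z 1 := by
  unfold ssum
  refine Submodule.sum_mem _ fun i _ => ?_
  split_ifs
  · exact Submodule.subset_span ⟨[i], le_rfl, by simp⟩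
  · exact Submodule.zero_mem _

private lemma ssum_sq {V : Type} (y : Fin L → V) (hQ : ∀ i j, y i = y j → Z i * Z j = 0) (v : V) :
    ssum y Z v * ssum y Z v = 0 := by
  unfold ssum
  rw [Finset.sum_mul_sum]
  refine Finset.sum_eq_zero fun i _ => Finset.sum_eq_zero fun j _ => ?_
  by_cases h1 : y i = v
  · by_cases h2 : y j = v
    · rw [if_pos h1, if_pos h2]
      exact hQ i j (h1.trans h2.symm)
    · rw [if_neg h2, mul_zero]
  · rw [if_neg h1, zero_mul]

private lemma ssum_comm {V : Type} (G : SimpleGraph V) (y : Fin L → V)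
    (hR : ∀ i j, G.Adj (y i) (y j) → Z i * Z j = Z j * Z i) {u v : V} (h : G.Adj u v) :
    ssum y Z u * ssum y Z v = ssum y Z v * ssum y Z u := by
  unfold ssum
  rw [Finset.sum_mul_sum, Finset.sum_mul_sum, Finset.sum_comm]
  refine Finset.sum_congr rfl fun j _ => Finset.sum_congr rfl fun i _ => ?_
  by_cases h1 : y i = u
  · by_cases h2 : y j = v
    · rw [if_pos h1, if_pos h2]
      exact hR i j (by rw [h1, h2]; exact h)
    · rw [if_neg h2, mul_zero, zero_mul]
  · rw [if_neg h1, zero_mul, mul_zero]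

end aux

theorem exists_hom {V : Type} (G : SimpleGraph V) {L : ℕ} (y : Fin L → V) {B : Type} [Ring B]
    [Algebra ℚ B] (Z : Fin L → B) (T : B →ₗ[ℚ] ℚ) (hT : ∀ a b, T (a * b) = T (b * a))
    (h0 : ∀ W : List (Fin L), L < W.length → T (W.map Z).prod = 0)
    (hR : ∀ i j, G.Adj (y i) (y j) → Z i * Z j = Z j * Z i)
    (hQ : ∀ i j, y i = y j → Z i * Z j = 0) :
    ∃ Θ : Raag G →* B, (∀ v (n : ℤ), Θ (gn G v ^ n) = 1 + (n : ℚ) • ssum y Z v) ∧
      ∀ h h', CC h h' → T (Θ h) = T (Θ h') := by
  classical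
  have hsq := ssum_sq Z y hQ
  let U : V → Bˣ := fun v =>
    ⟨1 + ssum y Z v, 1 - ssum y Z v, by
      rw [mul_sub, mul_one, add_mul, one_mul, hsq v]; abel, by
      rw [mul_add, mul_one, sub_mul, one_mul, hsq v]; abel⟩
  have hUv : ∀ v, ((U v : Bˣ) : B) = 1 + ssum y Z v := fun v => rfl
  have hUi : ∀ v, (((U v)⁻¹ : Bˣ) : B) = 1 - ssum y Z v := fun v => rfl
  have hUc : ∀ u v, G.Adj u v → U u * U v = U v * U u := by
    intro u v h
    apply Units.ext
    have e : ∀ a b : B, (1 + a) * (1 + b) = 1 + a + b + a * b := by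
      intro a b
      noncomm_ring
    rw [Units.val_mul, Units.val_mul, hUv, hUv, e, e, ssum_comm Z G y hR h]
    abel
  have hrel : ∀ r ∈ {r : FreeGroup V | ∃ u v, G.Adj u v ∧
      r = FreeGroup.of u * FreeGroup.of v * (FreeGroup.of u)⁻¹ * (FreeGroup.of v)⁻¹},
      FreeGroup.lift U r = 1 := by
    rintro r ⟨u, v, h, rfl⟩
    rw [map_mul, map_mul, map_mul, map_inv, map_inv, FreeGroup.lift_apply_of,
      FreeGroup.lift_apply_of, hUc u v h, mul_inv_cancel_right, mul_inv_cancel]
  let Θu : Raag G →* Bˣ := PresentedGroup.toGroup hrel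
  let Θ : Raag G →* B := (Units.coeHom B).comp Θu
  have hΘu : ∀ v, Θu (gn G v) = U v := fun v => PresentedGroup.toGroup.of hrel
  have hz : ∀ v (n : ℤ), ((U v ^ n : Bˣ) : B) = 1 + (n : ℚ) • ssum y Z v := by
    intro v n
    induction n using Int.induction_on with
    | zero => rw [zpow_zero, Units.val_one, Int.cast_zero, zero_smul, add_zero]
    | succ n ih =>
      have e : (1 + ((n : ℤ) : ℚ) • ssum y Z v) * (1 + ssum y Z v) =
          1 + ssum y Z v + ((n : ℤ) : ℚ) • ssum y Z v +
            ((n : ℤ) : ℚ) • (ssum y Z v * ssum y Z v) := by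
        rw [add_mul, one_mul, smul_mul_assoc, mul_add, mul_one, smul_add]
        abel
      rw [zpow_add_one, Units.val_mul, ih, hUv, e, hsq v, smul_zero, add_zero, Int.cast_add,
        Int.cast_one, add_smul, one_smul]
      abel
    | pred n ih =>
      have e : (1 + ((-(n : ℤ) : ℤ) : ℚ) • ssum y Z v) * (1 - ssum y Z v) =
          1 - ssum y Z v + ((-(n : ℤ) : ℤ) : ℚ) • ssum y Z v -
            ((-(n : ℤ) : ℤ) : ℚ) • (ssum y Z v * ssum y Z v) := by
        rw [add_mul, one_mul, smul_mul_assoc, mul_sub, mul_one, smul_sub]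
        abel
      rw [zpow_sub_one, Units.val_mul, ih, hUi, e, hsq v, smul_zero, sub_zero, Int.cast_sub,
        Int.cast_one, sub_smul, one_smul]
      abel
  have hΘ : ∀ v (n : ℤ), Θ (gn G v ^ n) = 1 + (n : ℚ) • ssum y Z v := by
    intro v n
    show ((Θu (gn G v ^ n) : Bˣ) : B) = _
    rw [map_zpow, hΘu, hz]
  refine ⟨Θ, hΘ, ?_⟩
  have hclo : ∀ g : Raag G, Θ g - 1 ∈ dsub Z 1 ∧ Θ g⁻¹ - 1 ∈ dsub Z 1 := by
    intro g
    have hg : g ∈ Subgroup.closure (Set.range (PresentedGroup.of (rels :=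
        {r : FreeGroup V | ∃ u v, G.Adj u v ∧
      r = FreeGroup.of u * FreeGroup.of v * (FreeGroup.of u)⁻¹ * (FreeGroup.of v)⁻¹}))) := by
      rw [PresentedGroup.closure_range_of]
      trivial
    have hmul : ∀ a b : B, a - 1 ∈ dsub Z 1 → b - 1 ∈ dsub Z 1 → a * b - 1 ∈ dsub Z 1 := by
      intro a b ha hb
      have e : a * b - 1 = (a - 1) * (b - 1) + (a - 1) + (b - 1) := by noncomm_ring
      rw [e]
      exact Submodule.add_mem _ (Submodule.add_mem _
        (dsub_anti Z (by omega) (dsub_mul Z ha hb)) ha) hb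
    induction hg using Subgroup.closure_induction with
    | mem x hx =>
      obtain ⟨v, rfl⟩ := hx
      constructor
      · have h1 := hΘ v 1
        rw [zpow_one, Int.cast_one, one_smul] at h1
        have h2 : Θ (PresentedGroup.of v) = 1 + ssum y Z v := h1
        rw [h2, add_sub_cancel_left]
        exact ssum_mem Z y v
      · have h1 := hΘ v (-1)
        rw [zpow_neg_one] at h1
        have h2 : Θ (PresentedGroup.of v)⁻¹ = 1 + ((-1 : ℤ) : ℚ) • ssum y Z v := h1
        rw [h2, add_sub_cancel_left]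
        exact Submodule.smul_mem _ _ (ssum_mem Z y v)
    | one =>
      rw [inv_one, map_one, sub_self]
      exact ⟨Submodule.zero_mem _, Submodule.zero_mem _⟩
    | mul a b _ _ ha hb =>
      rw [mul_inv_rev, map_mul, map_mul]
      exact ⟨hmul _ _ ha.1 hb.1, hmul _ _ hb.2 ha.2⟩
    | inv a _ ha =>
      rw [inv_inv]
      exact ⟨ha.2, ha.1⟩
  set F : MonoidAlgebra ℚ (Raag G) →ₐ[ℚ] B := MonoidAlgebra.lift ℚ B (Raag G) Θ with hFdef
  have hFs : ∀ g, F (single g 1) = Θ g := by
    intro g
    rw [hFdef, MonoidAlgebra.lift_single, one_smul]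
  have hF0 : ∀ x, F x ∈ dsub Z 0 := by
    intro x
    induction x using MonoidAlgebra.induction_linear with
    | zero => rw [map_zero]; exact Submodule.zero_mem _
    | add a b ha hb => rw [map_add]; exact Submodule.add_mem _ ha hb
    | single g r =>
      rw [hFdef, MonoidAlgebra.lift_single]
      refine Submodule.smul_mem _ _ ?_
      have e : Θ g = (Θ g - 1) + 1 := by rw [sub_add_cancel]
      rw [e]
      exact Submodule.add_mem _ (dsub_anti Z (Nat.zero_le _) (hclo g).1) (one_mem_dsub Z)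
  have hfil : ∀ n, Fil ℚ (Raag G) n ≤ (dsub Z n).comap F.toLinearMap := by
    intro n
    induction n with
    | zero => exact fun x _ => hF0 x
    | succ n ih =>
      apply fil_succ_le_of
      intro g v hv
      show F ((single g 1 - 1) * v) ∈ dsub Z (n + 1)
      rw [map_mul, map_sub, map_one, hFs, add_comm]
      exact dsub_mul Z (hclo g).1 (ih hv)
  have hT0 : ∀ x ∈ dsub Z (L + 1), T x = 0 := by
    intro x hx
    unfold dsub at hx
    refine Submodule.span_induction (p := fun x _ => T x = 0) ?_ ?_ ?_ ?_ hx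
    · rintro _ ⟨W, hW, rfl⟩
      exact h0 W hW
    · exact map_zero _
    · intro a b _ _ ha hb
      rw [map_add, ha, hb, add_zero]
    · intro c a _ ha
      rw [map_smul, ha, smul_zero]
  intro h h' hcc
  have hm := hcc (L + 1)
  rw [Submodule.mem_sup] at hm
  obtain ⟨a, ha, z, hz', hyz⟩ := hm
  have ea : T (F a) = 0 := hT0 _ (hfil (L + 1) ha)
  have ez : T (F z) = 0 := by
    unfold comQ at hz'
    refine Submodule.span_induction (p := fun z _ => T (F z) = 0) ?_ ?_ ?_ ?_ hz'
    · rintro _ ⟨a, b, rfl⟩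
      rw [map_sub, map_mul, map_mul, map_sub, hT, sub_self]
    · rw [map_zero, map_zero]
    · intro a b _ _ ha hb
      rw [map_add, map_add, ha, hb, add_zero]
    · intro c a _ ha
      rw [map_smul, map_smul, ha, smul_zero]
  rw [← sub_eq_zero, ← map_sub, ← hFs h, ← hFs h', ← map_sub, ← hyz, map_add, map_add, ea, ez,
    add_zero]

end Pool.Agent.RGL
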