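import Pool.Agent.RGL.Alg
import Pool.Agent.RGL.Rep
import Pool.Agent.RGL.Evl

set_option autoImplicit false
set_option linter.unusedSectionVars false

noncomputable section

open Classical

/-!
PACKAGE RGL-NCC. A cyclically reduced product is not equivalent to a shorter product.

* `not_cc`: let `L = E.length`, `y i = (E.get i).1`. `exists_trace` (RGL/Alg) with
  `f W = if Ok G y W then 1 else 0`, `R i j = G.Adj (y i) (y j)`, `Q i j = (y i = y j)`: the
  hypotheses are `ok_rot`, `ok_swap`, `ok_same` (RGL/Wrd). By `ok_length` `f W = 0` if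
  `W.length ≠ L`. Let `Θ` be the homomorphism of `exists_hom` (RGL/Rep). Then
  `Θ (sp G E) = (E.map fun z => 1 + (z.2 : ℚ) • ssum y Z z.1).prod` (`map_list_prod`), the same for
  `E'`. If `CC` then `T (Θ (sp G E)) = T (Θ (sp G E')) = 0` by `eval_lt` (RGL/Evl). But by `eval_top`
  it is the product of the `z.2`, `z ∈ E`, which is not zero (`hn`, `List.prod_eq_zero_iff`), times
  `T (E.map fun z => ssum y Z z.1).prod`, and `E.map (fun z => ssum y Z z.1)` is
  `(List.finRange L).map fun i => ssum y Z (y i)` (`List.map_get_finRange...`, or `List.ext_getElem`), so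
  this factor is at least `1` by `eval_pos` (`ok_self`). Contradiction.
* `cc_one`: the same with `y : Fin 1 → V`, `y i = v` (`CycRed` is trivial: there are no `i < j`). By
  `eval_top` for `E = [(v, n)]` and for `E = [(v', 1)]`: `n * T (S v) = T (S v')`, where
  `S v = Z 0` and `S v' = if v = v' then Z 0 else 0` (`Fin.sum_univ_one`, `Fin.sum_univ_succ`), and
  `T (Z 0) = f [0] = 1` by `ok_self` (`List.finRange 1 = [0]`). So `n = if v = v' then 1 else 0`.
-/

namespace Pool.Agent.RGL

open Pool.Agent.Lvl

variable {V : Type} (G : SimpleGraph V)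

private lemma theta_sp {B : Type} [Ring B] [Algebra ℚ B] (Θ : Raag G →* B) (S : V → B)
    (h : ∀ v (n : ℤ), Θ (gn G v ^ n) = 1 + (n : ℚ) • S v) (E : List (V × ℤ)) :
    Θ (sp G E) = (E.map fun z => 1 + (z.2 : ℚ) • S z.1).prod := by
  unfold sp
  rw [map_list_prod, List.map_map]
  congr 1
  refine List.map_congr_left fun z _ => ?_
  rw [Function.comp_apply, h]

/-- the functional for a cyclically reduced word -/
private lemma exists_functional {L : ℕ} (y : Fin L → V) (hy : CycRed G y) :
    ∃ (B : Type) (_ : Ring B) (_ : Algebra ℚ B) (Z : Fin L → B) (T : B →ₗ[ℚ] ℚ)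
      (Θ : Raag G →* B),
      (∀ W : List (Fin L), T (W.map Z).prod = if Ok G y W then 1 else 0) ∧
      (∀ v (n : ℤ), Θ (gn G v ^ n) = 1 + (n : ℚ) • ssum y Z v) ∧
      ∀ h h', CC h h' → T (Θ h) = T (Θ h') := by
  obtain ⟨B, i1, i2, Z, T, hT, hW, hR, hQ⟩ := exists_trace
    (fun W : List (Fin L) => if Ok G y W then (1 : ℚ) else 0) (fun i j => G.Adj (y i) (y j))
    (fun i j => y i = y j)
    (fun A B => by
      have h1 := ok_rot G y A B
      by_cases h : Ok G y (A ++ B)
      · rw [if_pos h, if_pos (h1.1 h)]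
      · rw [if_neg h, if_neg fun h2 => h (h1.2 h2)])
    (fun A i j hij => by
      have h1 := ok_swap G y A hij
      by_cases h : Ok G y (A ++ [i, j])
      · rw [if_pos h, if_pos (h1.1 h)]
      · rw [if_neg h, if_neg fun h2 => h (h1.2 h2)])
    (fun A i j hij => if_neg (ok_same G y hy A hij))
  obtain ⟨Θ, h1, h2⟩ := exists_hom G y Z T hT (fun W hWL => by
    rw [hW, if_neg]
    intro h
    have := ok_length G y h
    omega) hR hQ
  exact ⟨B, i1, i2, Z, T, Θ, hW, h1, h2⟩

theorem not_cc {E E' : List (V × ℤ)} (hE : CycRed G fun i : Fin E.length => (E.get i).1)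
    (hn : ∀ z ∈ E, z.2 ≠ 0) (hl : E'.length < E.length) : ¬ CC (sp G E) (sp G E') := by
  intro hc
  obtain ⟨B, i1, i2, Z, T, Θ, hW, h1, h2⟩ := exists_functional G _ hE
  set y : Fin E.length → V := fun i => (E.get i).1 with hyd
  have h0 : ∀ W : List (Fin E.length), W.length < E.length → T (W.map Z).prod = 0 := by
    intro W hWL
    rw [hW, if_neg]
    intro h
    have := ok_length G y h
    omega
  have h3 := h2 _ _ hc
  rw [theta_sp G Θ _ h1, theta_sp G Θ _ h1, eval_lt y Z T h0 E' hl, eval_top y Z T h0 E rfl] at h3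
  have h4 : (E.map fun z => ssum y Z z.1) =
      (List.finRange E.length).map fun i => ssum y Z (y i) := by
    refine List.ext_getElem (by simp) fun i hi hi' => ?_
    simp [hyd]
  have h5 := eval_pos y Z T (fun W => by
    rw [hW]
    split_ifs
    · exact zero_le_one
    · exact le_rfl) (by rw [hW, if_pos (ok_self G y)])
  rw [h4] at h3
  rcases mul_eq_zero.1 h3 with h6 | h6
  · rw [List.prod_eq_zero_iff, List.mem_map] at h6
    obtain ⟨z, hz, hz0⟩ := h6
    exact hn z hz (by exact_mod_cast hz0)
  · rw [h6] at h5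
    exact absurd h5 (by norm_num)

theorem cc_one {v v' : V} {n : ℤ} (hn : n ≠ 0) (h : CC (gn G v ^ n) (gn G v')) :
    v = v' ∧ n = 1 := by
  obtain ⟨B, i1, i2, Z, T, Θ, hW, h1, h2⟩ := exists_functional G (fun _ : Fin 1 => v) (by
    intro i j hij
    exact absurd hij (by have := Subsingleton.elim i j; rw [this]; exact lt_irrefl _))
  have h3 := h2 _ _ h
  have h4 := h1 v' 1
  rw [zpow_one] at h4
  have e0 : T 1 = 0 := by
    have h5 := hW []
    rw [List.map_nil, List.prod_nil, if_neg] at h5
    · exact h5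
    · intro h
      have := ok_length G _ h
      simp at this
  have e1 : T (Z 0) = 1 := by
    have h5 := hW [0]
    have h6 : ([0] : List (Fin 1)) = List.finRange 1 := rfl
    rw [if_pos (by rw [h6]; exact ok_self G _)] at h5
    simpa using h5
  have e2 : ssum (fun _ : Fin 1 => v) Z v = Z 0 := by
    simp [ssum]
  rw [h1, h4, map_add, map_add, e0, map_smul, e2, e1, map_smul] at h3
  by_cases hv : v = v'
  · subst hv
    rw [e2, e1] at h3
    simp only [zero_add, smul_eq_mul, mul_one] at h3
    exact ⟨rfl, by exact_mod_cast h3⟩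
  · have e3 : ssum (fun _ : Fin 1 => v) Z v' = 0 := by
      simp [ssum, hv]
    rw [e3, map_zero] at h3
    simp only [zero_add, smul_eq_mul, mul_one, mul_zero] at h3
    exact absurd (by exact_mod_cast h3) hn

end Pool.Agent.RGL
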