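import Pool.Agent.RGL.DblA
import Pool.Agent.RGL.DblB
import Pool.Agent.RGL.Ncc
import Pool.Agent.Lvl.CycF

set_option autoImplicit false
set_option linter.unusedSectionVars false

noncomputable section

open Classical

/-!
PACKAGE RGL-DBL. Products of conjugates of two generators.

Let `w`, `s`, `t` be as in `exists_dbl` (RGL/DblA) for `u`, and `W = sp G w`. The elements of
`spc (star a)` commute with `gn a` (`Subgroup.closure_induction`), the same for `b`. So
`a u b u⁻¹ = a s W t b t⁻¹ W⁻¹ s⁻¹` is conjugate (by `s`) to `a W b W⁻¹ = sp G (dbw a b w)`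
(`sp` of a list with opposite exponents and in the opposite order is the inverse: induction on `w`).
By `CC.of_isConj` (Lvl/CycF) `CC (sp G (dbw a b w)) (sp G [(a, 1), (b, 1)])`. If `w ≠ []` then
`(dbw a b w).length = 2 * w.length + 2 > 2`, and `not_cc` (RGL/Ncc) with `dbw_cycRed` (RGL/DblB)
gives a contradiction (the exponents of `dbw` are not zero by `Dred.ne`). So `w = []`, `W = 1` and
`u = s * t`.
-/

namespace Pool.Agent.RGL

open Pool.Agent.Lvl

variable {V : Type} (G : SimpleGraph V)

private lemma dbl_comm {v a : V} (h : G.Adj v a) : gn G v * gn G a = gn G a * gn G v := by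
  have h1 : (PresentedGroup.mk {r : FreeGroup V | ∃ u v, G.Adj u v ∧
      r = FreeGroup.of u * FreeGroup.of v * (FreeGroup.of u)⁻¹ * (FreeGroup.of v)⁻¹})
      (FreeGroup.of v * FreeGroup.of a * (FreeGroup.of v)⁻¹ * (FreeGroup.of a)⁻¹) = 1 :=
    (QuotientGroup.eq_one_iff _).2 (Subgroup.subset_normalClosure ⟨v, a, h, rfl⟩)
  rw [map_mul, map_mul, map_mul, map_inv, map_inv] at h1
  have h2 : gn G v * gn G a * (gn G v)⁻¹ * (gn G a)⁻¹ = 1 := h1
  rw [mul_inv_eq_one, mul_inv_eq_iff_eq_mul] at h2
  exact h2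

private lemma dbl_star {a : V} {x : Raag G} (hx : x ∈ spc G (star G a)) :
    x * gn G a = gn G a * x := by
  unfold spc at hx
  induction hx using Subgroup.closure_induction with
  | mem x hx =>
    obtain ⟨v, hv, rfl⟩ := hx
    rcases hv with rfl | hv
    · rfl
    · exact dbl_comm G hv
  | one => rw [one_mul, mul_one]
  | mul x y _ _ hx hy => rw [mul_assoc, hy, ← mul_assoc, hx, mul_assoc]
  | inv x _ hx => rw [inv_mul_eq_iff_eq_mul, ← mul_assoc, hx, mul_inv_cancel_right]

private lemma dbl_append (E F : List (V × ℤ)) : sp G (E ++ F) = sp G E * sp G F := by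
  unfold sp
  rw [List.map_append, List.prod_append]

private lemma dbl_cons (z : V × ℤ) (E : List (V × ℤ)) :
    sp G (z :: E) = gn G z.1 ^ z.2 * sp G E := by
  unfold sp
  rw [List.map_cons, List.prod_cons]

private lemma dbl_inv (w : List (V × ℤ)) :
    sp G (w.map fun z => (z.1, -z.2)).reverse = (sp G w)⁻¹ := by
  induction w with
  | nil => simp [sp]
  | cons z w ih =>
    rw [List.map_cons, List.reverse_cons, dbl_append, ih, dbl_cons, dbl_cons, mul_inv_rev]
    simp [sp]

theorem dbl {a b : V} (hab : a ≠ b) {u : Raag G}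
    (h : CC (gn G a * u * gn G b * u⁻¹) (gn G a * gn G b)) :
    ∃ s ∈ spc G (star G a), ∃ t ∈ spc G (star G b), u = s * t := by
  obtain ⟨w, hw, s, hs, t, ht, rfl⟩ := exists_dbl G a b u
  have hsa := dbl_star G hs
  have htb := dbl_star G ht
  have e1 : gn G a * (s * sp G w * t) * gn G b * (s * sp G w * t)⁻¹ =
      s * sp G (dbw a b w) * s⁻¹ := by
    unfold dbw
    rw [dbl_cons, dbl_append, dbl_cons, dbl_inv]
    simp only [zpow_one]
    have h1 : t * gn G b * t⁻¹ = gn G b := by rw [htb, mul_inv_cancel_right]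
    calc gn G a * (s * sp G w * t) * gn G b * (s * sp G w * t)⁻¹
        = (gn G a * s) * sp G w * (t * gn G b * t⁻¹) * (sp G w)⁻¹ * s⁻¹ := by group
      _ = (s * gn G a) * sp G w * gn G b * (sp G w)⁻¹ * s⁻¹ := by rw [h1, hsa]
      _ = s * (gn G a * (sp G w * (gn G b * (sp G w)⁻¹))) * s⁻¹ := by group
  rw [e1] at h
  have h2 : CC (sp G (dbw a b w)) (gn G a * gn G b) := by
    refine h.of_isConj ?_
    rw [isConj_iff]
    exact ⟨s⁻¹, by group⟩
  have e2 : gn G a * gn G b = sp G [(a, 1), (b, 1)] := by simp [sp]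
  rw [e2] at h2
  by_cases hnil : w = []
  · subst hnil
    refine ⟨s, hs, t, ht, ?_⟩
    simp [sp]
  · exfalso
    refine not_cc G (dbw_cycRed G hab hw) ?_ ?_ h2
    · intro z hz
      unfold dbw at hz
      rw [List.mem_cons, List.mem_append, List.mem_cons, List.mem_reverse, List.mem_map] at hz
      rcases hz with rfl | hz | rfl | ⟨y, hy, rfl⟩
      · exact one_ne_zero
      · exact hw.ne z hz
      · exact one_ne_zero
      · exact neg_ne_zero.2 (hw.ne y hy)
    · have h3 : 0 < w.length := List.length_pos_iff.2 hnil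
      simp only [dbw, List.length_cons, List.length_append, List.length_reverse, List.length_map,
        List.length_nil]
      omega

end Pool.Agent.RGL
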