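import Pool.Agent.RGL.DblD

set_option autoImplicit false
set_option linter.unusedSectionVars false

noncomputable section

open Classical

/-!
PACKAGE RGL-DBLA. Shortest representatives of double cosets (only Mathlib and RGL/DblD).

Every element of `Raag G` is `sp G w` for some list `w`: the set of all `sp G w` contains the generators
(`[(v, 1)]`), their inverses (`[(v, -1)]`) and is closed under products (append);
`PresentedGroup.closure_range_of`, `Subgroup.closure_induction` (or `FreeGroup.induction_on` after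
`QuotientGroup.mk_surjective`). So there are `s = 1`, `w`, `t = 1` with `u = s * sp w * t`. Choose
`s`, `w`, `t` with `w` of minimal length (`Nat.find`). Then `Dred G a b w`:
* `ne`: a syllable `z` with `z.2 = 0` can be omitted.
* `mid`: if `i < j`, the letters at `i`, `j` are both `v` and all letters between are adjacent to
  `v` then `w = A ++ (v, n) :: (M ++ (v, n') :: C)` (`List.take`, `List.drop`), the generator `v`
  commutes with `sp G M`, and `A v^n M v^n' C = A v^(n+n') M C` is the value of a shorter list.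
* `lef`: if the letter `v` at `i` is in the star of `a` and all letters before `i` are adjacent to
  `v`, then `w = A ++ (v, n) :: C`, `sp w = v^n A C`, and `u = (s v^n) (A C) t` with
  `s v^n ∈ spc (star a)`: the list `A ++ C` is shorter.
* `rig`: the same at the end, `sp w = A C v^n`, `u = s (A C) (v^n t)`.
(Adjacency is symmetric. `Commute` of `sp G M` with `gn G v`, if all letters of `M` are adjacent to
`v`: induction on `M`; adjacent generators commute in `Raag G` by `PresentedGroup.one_of_mem`.)
-/

namespace Pool.Agent.RGL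

variable {V : Type} (G : SimpleGraph V)

private lemma sp_append_DblA (E E' : List (V × ℤ)) : sp G (E ++ E') = sp G E * sp G E' := by
  simp only [sp, List.map_append, List.prod_append]

private lemma sp_cons_DblA (z : V × ℤ) (E : List (V × ℤ)) :
    sp G (z :: E) = gn G z.1 ^ z.2 * sp G E := by
  simp only [sp, List.map_cons, List.prod_cons]

private lemma sp_nil_DblA : sp G [] = 1 := by
  simp only [sp, List.map_nil, List.prod_nil]

private lemma gn_comm_DblA {u v : V} (h : G.Adj u v) : Commute (gn G u) (gn G v) := by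
  have h1 : (PresentedGroup.of u * PresentedGroup.of v * (PresentedGroup.of u)⁻¹ *
      (PresentedGroup.of v)⁻¹ : Raag G) = 1 :=
    (QuotientGroup.eq_one_iff _).2 (Subgroup.subset_normalClosure ⟨u, v, h, rfl⟩)
  have h2 : (gn G u * gn G v * (gn G u)⁻¹ * (gn G v)⁻¹ : Raag G) = 1 := h1
  have h3 := mul_inv_eq_one.1 h2
  exact mul_inv_eq_iff_eq_mul.1 h3

private lemma sp_comm_DblA {v : V} (n : ℤ) : ∀ {M : List (V × ℤ)}, (∀ z ∈ M, G.Adj z.1 v) →
    Commute (sp G M) (gn G v ^ n)
  | [], _ => by rw [sp_nil_DblA]; exact Commute.one_left _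
  | z :: M, h => by
    rw [sp_cons_DblA]
    exact Commute.mul_left ((gn_comm_DblA G (h z List.mem_cons_self)).zpow_zpow _ _)
      (sp_comm_DblA n fun w hw => h w (List.mem_cons_of_mem _ hw))

private theorem exists_sp_DblA (h : Raag G) : ∃ E, sp G E = h := by
  obtain ⟨z, rfl⟩ := QuotientGroup.mk_surjective h
  induction z using FreeGroup.induction_on with
  | C1 => exact ⟨[], sp_nil_DblA G⟩
  | of v =>
    refine ⟨[(v, 1)], ?_⟩
    rw [sp_cons_DblA, sp_nil_DblA, mul_one, zpow_one]
    rfl
  | inv_of v _ =>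
    refine ⟨[(v, -1)], ?_⟩
    rw [sp_cons_DblA, sp_nil_DblA, mul_one, zpow_neg, zpow_one]
    rfl
  | mul x y hx hy =>
    obtain ⟨E, hE⟩ := hx
    obtain ⟨E', hE'⟩ := hy
    refine ⟨E ++ E', ?_⟩
    rw [sp_append_DblA, hE, hE']
    rfl

private lemma split_DblA {E : List (V × ℤ)} {i j : ℕ} (hij : i < j) (hj : j < E.length) :
    ∃ A M C, E = A ++ E[i] :: (M ++ E[j] :: C) ∧
      (∀ z ∈ M, ∃ k, ∃ hk : k < E.length, i < k ∧ k < j ∧ E[k] = z) := by
  refine ⟨E.take i, (E.drop (i + 1)).take (j - i - 1), E.drop (j + 1), ?_, ?_⟩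
  · have h1 : E.drop j = E[j] :: E.drop (j + 1) := List.drop_eq_getElem_cons hj
    have h2 : E.drop i = E[i] :: E.drop (i + 1) := List.drop_eq_getElem_cons (by omega)
    have h3 : (E.drop (i + 1)).drop (j - i - 1) = E.drop j := by
      rw [List.drop_drop]
      congr 1
      omega
    rw [← h1, ← h3, List.take_append_drop, ← h2, List.take_append_drop]
  · intro z hz
    obtain ⟨k, hk, hz⟩ := List.mem_take_iff_getElem.1 hz
    rw [List.length_drop] at hk
    rw [List.getElem_drop] at hz
    exact ⟨i + 1 + k, by omega, by omega, by omega, hz⟩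

private lemma one_DblA {E : List (V × ℤ)} {i : ℕ} (hi : i < E.length) :
    ∃ A C, E = A ++ E[i] :: C ∧
      (∀ z ∈ A, ∃ k, ∃ hk : k < E.length, k < i ∧ E[k] = z) ∧
      (∀ z ∈ C, ∃ k, ∃ hk : k < E.length, i < k ∧ E[k] = z) := by
  refine ⟨E.take i, E.drop (i + 1), ?_, ?_, ?_⟩
  · have h2 : E.drop i = E[i] :: E.drop (i + 1) := List.drop_eq_getElem_cons hi
    rw [← h2, List.take_append_drop]
  · intro z hz
    obtain ⟨k, hk, hz⟩ := List.mem_take_iff_getElem.1 hz
    exact ⟨k, by omega, by omega, hz⟩
  · intro z hz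
    obtain ⟨k, hk, hz⟩ := List.mem_drop_iff_getElem.1 hz
    exact ⟨i + 1 + k, by omega, by omega, hz⟩

private lemma gn_mem_DblA {S : Set V} {v : V} (hv : v ∈ S) (n : ℤ) : gn G v ^ n ∈ spc G S := by
  have h : gn G v ∈ spc G S := Subgroup.subset_closure (Set.mem_image_of_mem _ hv)
  exact Subgroup.zpow_mem _ h n

theorem exists_dbl (a b : V) (u : Raag G) : ∃ w : List (V × ℤ), Dred G a b w ∧
    ∃ s ∈ spc G (star G a), ∃ t ∈ spc G (star G b), u = s * sp G w * t := by
  have hex : ∃ n, ∃ E : List (V × ℤ), E.length = n ∧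
      ∃ s ∈ spc G (star G a), ∃ t ∈ spc G (star G b), u = s * sp G E * t := by
    obtain ⟨E, hE⟩ := exists_sp_DblA G u
    exact ⟨_, E, rfl, 1, Subgroup.one_mem _, 1, Subgroup.one_mem _, by rw [hE, one_mul, mul_one]⟩
  obtain ⟨E, hEn, s, hs, t, ht, hE⟩ := Nat.find_spec hex
  have hmin : ∀ E' : List (V × ℤ), (∃ s ∈ spc G (star G a), ∃ t ∈ spc G (star G b),
      u = s * sp G E' * t) → E.length ≤ E'.length := fun E' h' => by
    rw [hEn]
    exact Nat.find_min' hex (m := E'.length) ⟨E', rfl, h'⟩
  refine ⟨E, Dred.mk ?_ ?_ ?_ ?_, s, hs, t, ht, hE⟩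
  · intro z hz h0
    obtain ⟨A, C, rfl⟩ := List.mem_iff_append.1 hz
    have h1 : sp G (A ++ z :: C) = sp G (A ++ C) := by
      rw [sp_append_DblA, sp_append_DblA, sp_cons_DblA, h0, zpow_zero, one_mul]
    rw [h1] at hE
    have h2 := hmin _ ⟨s, hs, t, ht, hE⟩
    simp only [List.length_append, List.length_cons] at h2
    omega
  · rintro ⟨i, hi⟩ ⟨j, hj⟩ hij hy
    have hij' : i < j := hij
    simp only [List.get_eq_getElem] at hy
    obtain ⟨A, M, C, hs1, hM⟩ := split_DblA hij' hj
    have hs2 : sp G E = sp G A * (gn G E[i].1 ^ E[i].2 * (sp G M *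
        (gn G E[i].1 ^ E[j].2 * sp G C))) := by
      have h1 := congrArg (sp G) hs1
      rw [sp_append_DblA, sp_cons_DblA, sp_append_DblA, sp_cons_DblA, ← hy] at h1
      exact h1
    have hl : E.length = A.length + (M.length + (C.length + 1) + 1) := by
      have h1 := congrArg List.length hs1
      simp only [List.length_append, List.length_cons] at h1
      exact h1
    by_contra hcon
    push Not at hcon
    have hc : Commute (sp G M) (gn G E[i].1 ^ E[j].2) := by
      apply sp_comm_DblA
      intro z hz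
      obtain ⟨k, hk, h1, h2, rfl⟩ := hM z hz
      exact hcon ⟨k, hk⟩ h1 h2
    have hnew : sp G (A ++ (E[i].1, E[i].2 + E[j].2) :: (M ++ C)) = sp G E := by
      rw [sp_append_DblA, sp_cons_DblA, sp_append_DblA, zpow_add, mul_assoc (gn G E[i].1 ^ _),
        ← mul_assoc (gn G E[i].1 ^ E[j].2), ← hc.eq, mul_assoc (sp G M), hs2]
    have h2 := hmin (A ++ (E[i].1, E[i].2 + E[j].2) :: (M ++ C))
      ⟨s, hs, t, ht, by rw [hnew]; exact hE⟩
    simp only [List.length_append, List.length_cons] at h2
    omega
  · rintro ⟨i, hi⟩ hy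
    simp only [List.get_eq_getElem] at hy
    obtain ⟨A, C, hs1, hA, _⟩ := one_DblA hi
    by_contra hcon
    push Not at hcon
    have hc : Commute (sp G A) (gn G E[i].1 ^ E[i].2) := by
      apply sp_comm_DblA
      intro z hz
      obtain ⟨k, hk, h1, rfl⟩ := hA z hz
      exact hcon ⟨k, hk⟩ h1
    have hs2 : sp G E = gn G E[i].1 ^ E[i].2 * sp G (A ++ C) := by
      have h1 := congrArg (sp G) hs1
      rw [sp_append_DblA, sp_cons_DblA, ← mul_assoc, hc.eq, mul_assoc, ← sp_append_DblA] at h1
      exact h1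
    have hl : E.length = A.length + (C.length + 1) := by
      have h1 := congrArg List.length hs1
      simp only [List.length_append, List.length_cons] at h1
      exact h1
    have h2 := hmin (A ++ C) ⟨s * gn G E[i].1 ^ E[i].2,
      Subgroup.mul_mem _ hs (gn_mem_DblA G hy _), t, ht, by rw [hE, hs2, ← mul_assoc]⟩
    simp only [List.length_append] at h2
    omega
  · rintro ⟨i, hi⟩ hy
    simp only [List.get_eq_getElem] at hy
    obtain ⟨A, C, hs1, _, hC⟩ := one_DblA hi
    by_contra hcon
    push Not at hcon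
    have hc : Commute (sp G C) (gn G E[i].1 ^ E[i].2) := by
      apply sp_comm_DblA
      intro z hz
      obtain ⟨k, hk, h1, rfl⟩ := hC z hz
      exact hcon ⟨k, hk⟩ h1
    have hs2 : sp G E = sp G (A ++ C) * gn G E[i].1 ^ E[i].2 := by
      have h1 := congrArg (sp G) hs1
      rw [sp_append_DblA, sp_cons_DblA, ← hc.eq, ← mul_assoc, ← sp_append_DblA] at h1
      exact h1
    have hl : E.length = A.length + (C.length + 1) := by
      have h1 := congrArg List.length hs1
      simp only [List.length_append, List.length_cons] at h1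
      exact h1
    have h2 := hmin (A ++ C) ⟨s, hs, gn G E[i].1 ^ E[i].2 * t,
      Subgroup.mul_mem _ (gn_mem_DblA G hy _) ht, by rw [hE, hs2]; simp only [mul_assoc]⟩
    simp only [List.length_append] at h2
    omega

end Pool.Agent.RGL
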