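import Pool.Agent.RGL.Defs

set_option autoImplicit false

noncomputable section

open Classical

namespace Pool.Agent.RGL

variable {V : Type} (G : SimpleGraph V)

/-- the word `a w b w⁻¹` -/
def dbw (a b : V) (w : List (V × ℤ)) : List (V × ℤ) :=
  (a, 1) :: (w ++ (b, 1) :: (w.map fun z => (z.1, -z.2)).reverse)

/-- The word `w` is reduced, and no letter of the star of `a` can be moved to its beginning and no
letter of the star of `b` to its end. -/
structure Dred (a b : V) (w : List (V × ℤ)) : Prop where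
  ne : ∀ z ∈ w, z.2 ≠ 0
  mid : ∀ i j : Fin w.length, i < j → (w.get i).1 = (w.get j).1 →
    ∃ k, i < k ∧ k < j ∧ ¬ G.Adj (w.get k).1 (w.get i).1
  lef : ∀ i : Fin w.length, (w.get i).1 ∈ star G a → ∃ k, k < i ∧ ¬ G.Adj (w.get k).1 (w.get i).1
  rig : ∀ i : Fin w.length, (w.get i).1 ∈ star G b → ∃ k, i < k ∧ ¬ G.Adj (w.get k).1 (w.get i).1

end Pool.Agent.RGL
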