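import Pool.Agent.Lvl.CCDef

set_option autoImplicit false

noncomputable section

open Classical

/-!
RGL: automorphisms of right-angled Artin groups. Definitions.
-/

namespace Pool.Agent.RGL

variable {V : Type}

/-- The right-angled Artin group of the graph `G`: the generators are the nodes of `G`, adjacent
nodes commute. -/
abbrev Raag (G : SimpleGraph V) : Type :=
  PresentedGroup {r : FreeGroup V | ∃ u v, G.Adj u v ∧
    r = FreeGroup.of u * FreeGroup.of v * (FreeGroup.of u)⁻¹ * (FreeGroup.of v)⁻¹}

variable (G : SimpleGraph V)

/-- the generator of a node -/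
def gn (v : V) : Raag G := PresentedGroup.of v

/-- the product of the syllables `v ^ n` of a list of pairs `(v, n)` -/
def sp (E : List (V × ℤ)) : Raag G := (E.map fun z => gn G z.1 ^ z.2).prod

/-- the special subgroup of a set of nodes -/
def spc (S : Set V) : Subgroup (Raag G) := Subgroup.closure (gn G '' S)

/-- the star of a node -/
def star (a : V) : Set V := {v | v = a ∨ G.Adj v a}

section

variable {L : ℕ}

/-- A word `y` is cyclically reduced: if the letters at `i < j` are equal, then there is a letter
between them and a letter outside which are not adjacent to this letter (they may be equal to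
it). -/
def CycRed (y : Fin L → V) : Prop :=
  ∀ i j : Fin L, i < j → y i = y j →
    (∃ k, i < k ∧ k < j ∧ ¬ G.Adj (y k) (y i)) ∧ ∃ k, (k < i ∨ j < k) ∧ ¬ G.Adj (y k) (y i)

/-- The cuts of the infinite periodic word with the period `y`: `κ i` is the number of the copies of
the letter at `i` before the cut (an integer, if the copies are numbered by the integers). -/
def Cut (y : Fin L → V) (κ : Fin L → ℤ) : Prop :=
  ∀ i j : Fin L, i < j → ¬ G.Adj (y i) (y j) → κ j ≤ κ i ∧ κ i ≤ κ j + 1

/-- The word `W` in the positions is a path in the set of cuts which starts in `κ`. -/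
def Pth (y : Fin L → V) : List (Fin L) → (Fin L → ℤ) → Prop
  | [], κ => Cut G y κ
  | i :: W, κ => Cut G y κ ∧ Pth y W (κ + Pi.single i 1)

/-- the word `W` contains every position once and is a path -/
def Ok (y : Fin L → V) (W : List (Fin L)) : Prop :=
  (∀ i, W.count i = 1) ∧ ∃ κ, Pth G y W κ

/-- the sum of the `Z i` over the positions `i` of the letter `v` -/
def ssum {B : Type} [AddCommMonoid B] (y : Fin L → V) (Z : Fin L → B) (v : V) : B :=
  ∑ i, if y i = v then Z i else 0

end

end Pool.Agent.RGL
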