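import Pool.Agent.RGL.Defs

set_option autoImplicit false
set_option linter.unusedSectionVars false

noncomputable section

open Classical

/-!
PACKAGE RGL-HEL. Cosets of special subgroups which meet pairwise have a common element (only Mathlib
and RGL/Defs).

For `S : Set V` let `r S : Raag G →* Raag G` be the homomorphism with `v ↦ v` for `v ∈ S` and
`v ↦ 1` for `v ∉ S` (`PresentedGroup.toGroup`; the relations are respected). Then
(a) `r S x = x` for `x ∈ spc G S` (`Subgroup.closure_induction`); (b) if `x ∈ spc G S'` then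
`r S x ∈ spc G (S ∩ S')`; (c) `r S x ∈ spc G S` for all `x` (from (b) with `S' = univ`,
`PresentedGroup.closure_range_of`); (d) `x ∈ spc G S`, `x ∈ spc G S'` implies
`x ∈ spc G (S ∩ S')` (by (a), (b)); `spc` is monotone.
* Three cosets. Let `p ∈ C_a ∩ C_b`, `q ∈ C_a ∩ C_v`, `r ∈ C_b ∩ C_v`, where `C_a` is the coset of
  `spc (S a)`, that is `p⁻¹ q ∈ spc (S a)`, `p⁻¹ r ∈ spc (S b)`, `q⁻¹ r ∈ spc (S v)`. Put `q' = p⁻¹
  q`, `r' = p⁻¹ r` and `c' = r (S a) r'`, the retraction applied to `r'`. Then `c' ∈ spc (S a ∩ S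
  b)`, and `q'⁻¹ c' = r (S a) (q'⁻¹ r') ∈ spc (S a ∩ S v)` by (a), (b). So `c = p c'` is in all
  three cosets.
* The theorem: induction on the finite set `A`, for all `S`, `g` together
  (`Finset.induction_on`). Empty: `c = 1`. For `insert v A`: for every `a ∈ A` choose
  `g' a` in the intersection of the cosets of `a` and `v` (hypothesis for the pair `a`, `v`), and
  let `S' a = S a ∩ S v`. The pairwise hypothesis for `S'`, `g'`, `a`, `b ∈ A`: by the case of three
  cosets there is a common element `c` of the cosets of `a`, `b`, `v`, and `(g' a)⁻¹ c` is in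
  `spc (S a)` and in `spc (S v)`, so in `spc (S' a)` by (d). The induction hypothesis gives `c`
  with `(g' a)⁻¹ c ∈ spc (S' a)` for all `a ∈ A`; it is in the coset of `a` and in the coset of
  `v`. If `A` is empty take `c = g v`.
-/

namespace Pool.Agent.RGL

variable {V : Type} (G : SimpleGraph V)

private theorem Hel_comm {u v : V} (h : G.Adj u v) :
    gn G u * gn G v * (gn G u)⁻¹ * (gn G v)⁻¹ = 1 := by
  have h1 : (PresentedGroup.mk {r : FreeGroup V | ∃ u v, G.Adj u v ∧
    r = FreeGroup.of u * FreeGroup.of v * (FreeGroup.of u)⁻¹ * (FreeGroup.of v)⁻¹}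
      (FreeGroup.of u * FreeGroup.of v * (FreeGroup.of u)⁻¹ * (FreeGroup.of v)⁻¹)) = 1 :=
    PresentedGroup.one_of_mem ⟨u, v, h, rfl⟩
  exact h1

/-- the retraction to a special subgroup -/
private def ret (S : Set V) : Raag G →* Raag G :=
  PresentedGroup.toGroup (f := fun v => if v ∈ S then gn G v else 1) (by
    rintro r ⟨u, v, h, rfl⟩
    rw [map_mul, map_mul, map_mul, map_inv, map_inv, FreeGroup.lift_apply_of,
      FreeGroup.lift_apply_of]
    by_cases hu : u ∈ S
    · by_cases hv : v ∈ S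
      · rw [if_pos hu, if_pos hv]
        exact Hel_comm G h
      · rw [if_pos hu, if_neg hv, mul_one, inv_one, mul_one, mul_inv_cancel]
    · rw [if_neg hu, one_mul, inv_one, mul_one, mul_inv_cancel])

private theorem ret_gn (S : Set V) (v : V) : ret G S (gn G v) = if v ∈ S then gn G v else 1 :=
  PresentedGroup.toGroup.of _

private theorem spc_mono {S S' : Set V} (h : S ⊆ S') : spc G S ≤ spc G S' :=
  Subgroup.closure_mono (Set.image_mono h)

private theorem ret_self {S : Set V} {x : Raag G} (hx : x ∈ spc G S) : ret G S x = x := by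
  induction hx using Subgroup.closure_induction with
  | mem y hy =>
    obtain ⟨v, hv, rfl⟩ := hy
    rw [ret_gn, if_pos hv]
  | one => exact map_one _
  | mul y z _ _ h1 h2 => rw [map_mul, h1, h2]
  | inv y _ h1 => rw [map_inv, h1]

private theorem ret_mem (S : Set V) {S' : Set V} {x : Raag G} (hx : x ∈ spc G S') :
    ret G S x ∈ spc G (S ∩ S') := by
  induction hx using Subgroup.closure_induction with
  | mem y hy =>
    obtain ⟨v, hv, rfl⟩ := hy
    rw [ret_gn]
    split_ifs with h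
    · exact Subgroup.subset_closure ⟨v, ⟨h, hv⟩, rfl⟩
    · exact one_mem _
  | one =>
    rw [map_one]
    exact one_mem _
  | mul y z _ _ h1 h2 =>
    rw [map_mul]
    exact mul_mem h1 h2
  | inv y _ h1 =>
    rw [map_inv]
    exact inv_mem h1

private theorem spc_inter {S S' : Set V} {x : Raag G} (h : x ∈ spc G S) (h' : x ∈ spc G S') :
    x ∈ spc G (S ∩ S') := by
  have h1 := ret_mem G S h'
  rwa [ret_self G h] at h1

/-- three cosets -/
private theorem Hel_three {Sa Sb Sv : Set V} {p q r : Raag G} (h1 : p⁻¹ * q ∈ spc G Sa)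
    (h2 : p⁻¹ * r ∈ spc G Sb) (h3 : q⁻¹ * r ∈ spc G Sv) :
    ∃ c, p⁻¹ * c ∈ spc G (Sa ∩ Sb) ∧ q⁻¹ * c ∈ spc G (Sa ∩ Sv) := by
  refine ⟨p * ret G Sa (p⁻¹ * r), ?_, ?_⟩
  · rw [inv_mul_cancel_left]
    exact ret_mem G Sa h2
  · have h4 : q⁻¹ * (p * ret G Sa (p⁻¹ * r)) = ret G Sa (q⁻¹ * r) := by
      have h5 : q⁻¹ * r = (p⁻¹ * q)⁻¹ * (p⁻¹ * r) := by group
      rw [h5, map_mul (ret G Sa) (p⁻¹ * q)⁻¹ (p⁻¹ * r), map_inv (ret G Sa) (p⁻¹ * q),
        ret_self G h1, mul_inv_rev, inv_inv, mul_assoc]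
    rw [h4]
    exact ret_mem G Sa h3

theorem helly {ι : Type} (A : Finset ι) (S : ι → Set V) (g : ι → Raag G)
    (h : ∀ a ∈ A, ∀ b ∈ A, ∃ c, (g a)⁻¹ * c ∈ spc G (S a) ∧ (g b)⁻¹ * c ∈ spc G (S b)) :
    ∃ c, ∀ a ∈ A, (g a)⁻¹ * c ∈ spc G (S a) := by
  induction A using Finset.induction_on generalizing S g with
  | empty => exact ⟨1, fun a ha => absurd ha (Finset.notMem_empty a)⟩
  | insert v A hv ih =>
    have h1 : ∀ a, a ∈ A → ∃ c, (g a)⁻¹ * c ∈ spc G (S a) ∧ (g v)⁻¹ * c ∈ spc G (S v) :=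
      fun a ha => h a (Finset.mem_insert_of_mem ha) v (Finset.mem_insert_self v A)
    choose! g' hg1 hg2 using h1
    have hd : ∀ {T : Set V} {x y z : Raag G}, x⁻¹ * y ∈ spc G T → x⁻¹ * z ∈ spc G T →
        y⁻¹ * z ∈ spc G T := by
      intro T x y z h3 h4
      have h5 : y⁻¹ * z = (x⁻¹ * y)⁻¹ * (x⁻¹ * z) := by group
      rw [h5]
      exact mul_mem (inv_mem h3) h4
    obtain ⟨c, hc⟩ := ih (fun a => S a ∩ S v) g' fun a ha b hb => by
      obtain ⟨p, hp1, hp2⟩ := h a (Finset.mem_insert_of_mem ha) b (Finset.mem_insert_of_mem hb)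
      have h4 : p⁻¹ * g' a ∈ spc G (S a) := hd hp1 (hg1 a ha)
      have h5 : p⁻¹ * g' b ∈ spc G (S b) := hd hp2 (hg1 b hb)
      have h6 : (g' a)⁻¹ * g' b ∈ spc G (S v) := hd (hg2 a ha) (hg2 b hb)
      obtain ⟨c, hc1, hc2⟩ := Hel_three G h4 h5 h6
      refine ⟨c, hc2, spc_inter G ?_ ?_⟩
      · exact hd h5 (spc_mono G Set.inter_subset_right hc1)
      · exact hd h6 (spc_mono G Set.inter_subset_right hc2)
    have hm : ∀ {T : Set V} {x y z : Raag G}, x⁻¹ * y ∈ spc G T → y⁻¹ * z ∈ spc G T →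
        x⁻¹ * z ∈ spc G T := by
      intro T x y z h3 h4
      have h5 : x⁻¹ * z = x⁻¹ * y * (y⁻¹ * z) := by group
      rw [h5]
      exact mul_mem h3 h4
    rcases A.eq_empty_or_nonempty with rfl | ⟨a0, ha0⟩
    · refine ⟨g v, fun a ha => ?_⟩
      have h3 : a = v := by simpa using ha
      subst h3
      rw [inv_mul_cancel]
      exact one_mem _
    · refine ⟨c, fun a ha => ?_⟩
      rcases Finset.mem_insert.1 ha with rfl | ha
      · exact hm (hg2 a0 ha0) (spc_mono G Set.inter_subset_right (hc a0 ha0))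
      · exact hm (hg1 a ha) (spc_mono G Set.inter_subset_left (hc a ha))

end Pool.Agent.RGL
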