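import Pool.Agent.RGL.Sgl
import Pool.Agent.RGL.Dbl
import Pool.Agent.RGL.Hel

set_option autoImplicit false
set_option linter.unusedSectionVars false

noncomputable section

open Classical

/-!
PACKAGE RGL-INN. Assembly: homomorphisms which preserve the classes of `CC` are inner.

For every node `v` we have `CC (φ (gn v)) (gn v)`, so by `conj_gen` and `isConj_iff` there is `g v`
with `φ (gn v) = g v * gn v * (g v)⁻¹`. For `a ≠ b` let `u = (g a)⁻¹ * g b`. Then
`φ (gn a * gn b) = g a * gn a * u * gn b * (g b)⁻¹` is conjugate to `gn a * u * gn b * u⁻¹`, so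
`CC (gn a * u * gn b * u⁻¹) (gn a * gn b)` (`CC.of_isConj`), and by `dbl` `u = s * t` with
`s ∈ spc (star a)`, `t ∈ spc (star b)`. So `c = g a * s = g b * t⁻¹` satisfies the hypothesis of
`helly` for the pair `a`, `b` (for `a = b` take `c = g a`). `helly` with `A = Finset.univ`
(`Fintype.ofFinite`) gives `c` with `(g v)⁻¹ * c ∈ spc (star v)` for all `v`. The elements of
`spc (star v)` commute with `gn v` (`Subgroup.closure_induction`; the generators of the star
commute with `gn v`). So `φ (gn v) = c * gn v * c⁻¹` for all `v`, and `φ` is conjugation by `c`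
(`PresentedGroup.ext`, or `Subgroup.closure_induction` with `PresentedGroup.closure_range_of`).
-/

namespace Pool.Agent.RGL

open Pool.Agent.Lvl

private lemma adj_inn {V : Type} (G : SimpleGraph V) {u v : V} (h : G.Adj u v) :
    gn G u * gn G v = gn G v * gn G u := by
  have h1 : (PresentedGroup.mk {r : FreeGroup V | ∃ u v, G.Adj u v ∧
      r = FreeGroup.of u * FreeGroup.of v * (FreeGroup.of u)⁻¹ * (FreeGroup.of v)⁻¹})
      (FreeGroup.of u * FreeGroup.of v * (FreeGroup.of u)⁻¹ * (FreeGroup.of v)⁻¹) = 1 :=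
    PresentedGroup.one_of_mem ⟨u, v, h, rfl⟩
  rw [map_mul, map_mul, map_mul, map_inv, map_inv] at h1
  have h2 : gn G u * gn G v * (gn G u)⁻¹ * (gn G v)⁻¹ = 1 := h1
  rw [mul_inv_eq_one, mul_inv_eq_iff_eq_mul] at h2
  exact h2

private lemma comm_inn {V : Type} (G : SimpleGraph V) {v : V} {x : Raag G}
    (hx : x ∈ spc G (star G v)) : x * gn G v = gn G v * x := by
  refine Subgroup.closure_induction (p := fun x _ => x * gn G v = gn G v * x) ?_ ?_ ?_ ?_ hx
  · rintro _ ⟨w, hw, rfl⟩
    rcases hw with rfl | hw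
    · rfl
    · exact adj_inn G hw
  · rw [one_mul, mul_one]
  · intro a b _ _ ha hb
    rw [mul_assoc, hb, ← mul_assoc, ha, mul_assoc]
  · intro a _ ha
    rw [inv_mul_eq_iff_eq_mul, ← mul_assoc, ha, mul_inv_cancel_right]

theorem raag_inner {V : Type} [Finite V] (G : SimpleGraph V) (φ : Raag G →* Raag G)
    (h : ∀ x, CC (φ x) x) : ∃ w, ∀ x, φ x = w * x * w⁻¹ := by
  have hg : ∀ v, ∃ g, φ (gn G v) = g * gn G v * g⁻¹ := by
    intro v
    obtain ⟨g, hg⟩ := isConj_iff.1 (conj_gen G (h (gn G v))).symm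
    exact ⟨g, hg.symm⟩
  choose g hg using hg
  haveI := Fintype.ofFinite V
  obtain ⟨c, hc⟩ := helly G Finset.univ (star G) g (by
    intro a _ b _
    by_cases hab : a = b
    · subst hab
      exact ⟨g a, by rw [inv_mul_cancel]; exact one_mem _, by rw [inv_mul_cancel]; exact one_mem _⟩
    · have h1 : CC (gn G a * ((g a)⁻¹ * g b) * gn G b * ((g a)⁻¹ * g b)⁻¹)
          (gn G a * gn G b) := by
        refine (h (gn G a * gn G b)).of_isConj ?_
        rw [map_mul, hg, hg, isConj_iff]
        refine ⟨(g a)⁻¹, ?_⟩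
        group
      obtain ⟨s, hs, t, ht, hst⟩ := dbl G hab h1
      refine ⟨g a * s, by rw [inv_mul_cancel_left]; exact hs, ?_⟩
      have h2 : (g b)⁻¹ * (g a * s) = t⁻¹ := by
        have h3 : (g b)⁻¹ * (g a * s) = ((g a)⁻¹ * g b)⁻¹ * s := by group
        rw [h3, hst]
        group
      rw [h2]
      exact inv_mem ht)
  refine ⟨c, fun x => ?_⟩
  have hc' : ∀ v, φ (gn G v) = c * gn G v * c⁻¹ := by
    intro v
    have h1 := comm_inn G (hc v (Finset.mem_univ v))
    have h2 : c = g v * ((g v)⁻¹ * c) := by group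
    rw [hg v]
    calc g v * gn G v * (g v)⁻¹ = g v * (gn G v * ((g v)⁻¹ * c)) * c⁻¹ := by group
      _ = g v * (((g v)⁻¹ * c) * gn G v) * c⁻¹ := by rw [h1]
      _ = c * gn G v * c⁻¹ := by group
  have h3 : φ = (MulAut.conj c).toMonoidHom := by
    refine PresentedGroup.ext fun v => ?_
    rw [MulEquiv.toMonoidHom_eq_coe, MonoidHom.coe_coe, MulAut.conj_apply]
    exact hc' v
  rw [h3]
  rfl

end Pool.Agent.RGL
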