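import Pool.Agent.RGL.Ncc
import Pool.Agent.Lvl.CycF

set_option autoImplicit false
set_option linter.unusedSectionVars false

noncomputable section

open Classical

/-!
PACKAGE RGL-SGL. Conjugates of a generator.

* `exists_sp`: the set of all `sp G E` contains the generators (`[(v, 1)]`), their inverses
  (`[(v, -1)]`) and is closed under products (append); `PresentedGroup` induction
  (`QuotientGroup.mk_surjective` / `PresentedGroup.closure_range_of`, `FreeGroup.induction_on`).
* `exists_cycRed`: choose `E` with `IsConj h (sp G E)` of minimal length. (0) If `z.2 = 0` for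
  `z ∈ E` then `z` can be omitted. (1) Suppose that `i < j`, the letters at `i`, `j` are both `v`, and all
  letters between them are adjacent to `v`: `E = A ++ (v, n) :: (M ++ (v, n') :: C)`
  (`List.take`, `List.drop`), and the generator `v` commutes with `sp G M` (adjacent generators
  commute in `Raag G`). So `sp E = A v^n M v^n' C = A v^(n+n') M C` is the value of the shorter list
  `A ++ (v, n + n') :: (M ++ C)`. (2) If all letters outside are adjacent to `v`:
  `sp E = A v^n M v^n' C = A v^n M C v^n'` is conjugate to `v^n' A v^n M C = A v^(n+n') M C`, again the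
  value of the shorter list. So `CycRed`.
  (Adjacency is symmetric; `Commute` of `sp G M` with `gn G v`: induction on `M`.)
* `conj_gen`: take `E` for `h`. `CC (sp G E) (gn G v)` by `CC.of_isConj` (Lvl/CycF). If
  `2 ≤ E.length` then `not_cc` with `E' = [(v, 1)]` gives a contradiction. If `E = []` then
  `sp G E = 1`, and `not_cc` for `[(v, 1)]` and `[]` (`CC.symm`; `CycRed` is trivial for lists of
  length one) gives a contradiction. If `E = [(u, n)]` then `u = v`, `n = 1` by `cc_one`.
-/

namespace Pool.Agent.RGL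

open Pool.Agent.Lvl

variable {V : Type} (G : SimpleGraph V)

private lemma sp_append (E E' : List (V × ℤ)) : sp G (E ++ E') = sp G E * sp G E' := by
  simp only [sp, List.map_append, List.prod_append]

private lemma sp_cons (z : V × ℤ) (E : List (V × ℤ)) : sp G (z :: E) = gn G z.1 ^ z.2 * sp G E := by
  simp only [sp, List.map_cons, List.prod_cons]

private lemma sp_nil : sp G [] = 1 := by
  simp only [sp, List.map_nil, List.prod_nil]

private lemma gn_comm {u v : V} (h : G.Adj u v) : Commute (gn G u) (gn G v) := by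
  have h1 : (PresentedGroup.of u * PresentedGroup.of v * (PresentedGroup.of u)⁻¹ *
      (PresentedGroup.of v)⁻¹ : Raag G) = 1 :=
    (QuotientGroup.eq_one_iff _).2 (Subgroup.subset_normalClosure ⟨u, v, h, rfl⟩)
  have h2 : (gn G u * gn G v * (gn G u)⁻¹ * (gn G v)⁻¹ : Raag G) = 1 := h1
  have h3 := mul_inv_eq_one.1 h2
  exact mul_inv_eq_iff_eq_mul.1 h3

private lemma sp_comm {v : V} (n : ℤ) : ∀ {M : List (V × ℤ)}, (∀ z ∈ M, G.Adj z.1 v) →
    Commute (sp G M) (gn G v ^ n)
  | [], _ => by rw [sp_nil]; exact Commute.one_left _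
  | z :: M, h => by
    rw [sp_cons]
    exact Commute.mul_left ((gn_comm G (h z List.mem_cons_self)).zpow_zpow _ _)
      (sp_comm n fun w hw => h w (List.mem_cons_of_mem _ hw))

theorem exists_sp (h : Raag G) : ∃ E, sp G E = h := by
  obtain ⟨z, rfl⟩ := QuotientGroup.mk_surjective h
  induction z using FreeGroup.induction_on with
  | C1 => exact ⟨[], sp_nil G⟩
  | of v =>
    refine ⟨[(v, 1)], ?_⟩
    rw [sp_cons, sp_nil, mul_one, zpow_one]
    rfl
  | inv_of v _ =>
    refine ⟨[(v, -1)], ?_⟩
    rw [sp_cons, sp_nil, mul_one, zpow_neg, zpow_one]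
    rfl
  | mul x y hx hy =>
    obtain ⟨E, hE⟩ := hx
    obtain ⟨E', hE'⟩ := hy
    refine ⟨E ++ E', ?_⟩
    rw [sp_append, hE, hE']
    rfl

private lemma split {E : List (V × ℤ)} {i j : ℕ} (hij : i < j) (hj : j < E.length) :
    ∃ A M C, E = A ++ E[i] :: (M ++ E[j] :: C) ∧
      (∀ z ∈ A, ∃ k, ∃ hk : k < E.length, k < i ∧ E[k] = z) ∧
      (∀ z ∈ M, ∃ k, ∃ hk : k < E.length, i < k ∧ k < j ∧ E[k] = z) ∧
      (∀ z ∈ C, ∃ k, ∃ hk : k < E.length, j < k ∧ E[k] = z) := by
  refine ⟨E.take i, (E.drop (i + 1)).take (j - i - 1), E.drop (j + 1), ?_, ?_, ?_, ?_⟩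
  · have h1 : E.drop j = E[j] :: E.drop (j + 1) := List.drop_eq_getElem_cons hj
    have h2 : E.drop i = E[i] :: E.drop (i + 1) := List.drop_eq_getElem_cons (by omega)
    have h3 : (E.drop (i + 1)).drop (j - i - 1) = E.drop j := by
      rw [List.drop_drop]
      congr 1
      omega
    rw [← h1, ← h3, List.take_append_drop, ← h2, List.take_append_drop]
  · intro z hz
    obtain ⟨k, hk, hz⟩ := List.mem_take_iff_getElem.1 hz
    exact ⟨k, by omega, by omega, hz⟩
  · intro z hz
    obtain ⟨k, hk, hz⟩ := List.mem_take_iff_getElem.1 hz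
    rw [List.length_drop] at hk
    rw [List.getElem_drop] at hz
    exact ⟨i + 1 + k, by omega, by omega, by omega, hz⟩
  · intro z hz
    obtain ⟨k, hk, hz⟩ := List.mem_drop_iff_getElem.1 hz
    exact ⟨j + 1 + k, by omega, by omega, hz⟩

theorem exists_cycRed (h : Raag G) : ∃ E : List (V × ℤ), IsConj h (sp G E) ∧
    (∀ z ∈ E, z.2 ≠ 0) ∧ CycRed G fun i : Fin E.length => (E.get i).1 := by
  have hex : ∃ n, ∃ E : List (V × ℤ), E.length = n ∧ IsConj h (sp G E) := by
    obtain ⟨E, hE⟩ := exists_sp G h
    exact ⟨_, E, rfl, by rw [hE]⟩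
  obtain ⟨E, hEn, hE⟩ := Nat.find_spec hex
  have hmin : ∀ E' : List (V × ℤ), IsConj h (sp G E') → E.length ≤ E'.length := fun E' h' => by
    rw [hEn]
    exact Nat.find_min' hex ⟨E', rfl, h'⟩
  refine ⟨E, hE, ?_, ?_⟩
  · intro z hz h0
    obtain ⟨s, t, rfl⟩ := List.mem_iff_append.1 hz
    have h1 : sp G (s ++ z :: t) = sp G (s ++ t) := by
      rw [sp_append, sp_append, sp_cons, h0, zpow_zero, one_mul]
    rw [h1] at hE
    have h2 := hmin _ hE
    simp only [List.length_append, List.length_cons] at h2
    omega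
  · rintro ⟨i, hi⟩ ⟨j, hj⟩ hij hy
    have hij' : i < j := hij
    simp only [List.get_eq_getElem] at hy
    obtain ⟨A, M, C, hs, hA, hM, hC⟩ := split hij' hj
    have hs2 : sp G E = sp G A * (gn G E[i].1 ^ E[i].2 * (sp G M *
        (gn G E[i].1 ^ E[j].2 * sp G C))) := by
      have h1 := congrArg (sp G) hs
      rw [sp_append, sp_cons, sp_append, sp_cons, ← hy] at h1
      exact h1
    have hl : E.length = A.length + (M.length + (C.length + 1) + 1) := by
      have h1 := congrArg List.length hs
      simp only [List.length_append, List.length_cons] at h1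
      exact h1
    have hnew : sp G (A ++ (E[i].1, E[i].2 + E[j].2) :: (M ++ C)) = sp G A *
        (gn G E[i].1 ^ E[i].2 * (gn G E[i].1 ^ E[j].2 * (sp G M * sp G C))) := by
      rw [sp_append, sp_cons, sp_append, zpow_add, mul_assoc]
    have hnl : ¬ IsConj h (sp G (A ++ (E[i].1, E[i].2 + E[j].2) :: (M ++ C))) := by
      intro h1
      have h2 := hmin _ h1
      simp only [List.length_append, List.length_cons] at h2
      omega
    constructor
    · by_contra hcon
      push Not at hcon
      apply hnl
      have hc : Commute (sp G M) (gn G E[i].1 ^ E[j].2) := by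
        apply sp_comm
        intro z hz
        obtain ⟨k, hk, h1, h2, rfl⟩ := hM z hz
        exact hcon ⟨k, hk⟩ h1 h2
      rw [hnew, ← mul_assoc (gn G E[i].1 ^ E[j].2), ← hc.eq, mul_assoc (sp G M), ← hs2]
      exact hE
    · by_contra hcon
      push Not at hcon
      apply hnl
      have hc : Commute (sp G C) (gn G E[i].1 ^ E[j].2) := by
        apply sp_comm
        intro z hz
        obtain ⟨k, hk, h1, rfl⟩ := hC z hz
        exact hcon ⟨k, hk⟩ (Or.inr h1)
      have hc' : Commute (sp G A) (gn G E[i].1 ^ E[j].2) := by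
        apply sp_comm
        intro z hz
        obtain ⟨k, hk, h1, rfl⟩ := hA z hz
        exact hcon ⟨k, hk⟩ (Or.inl h1)
      refine hE.trans (isConj_iff.2 ⟨gn G E[i].1 ^ E[j].2, ?_⟩)
      rw [hnew, hs2, ← hc.eq]
      have hyy : gn G E[i].1 ^ E[i].2 * gn G E[i].1 ^ E[j].2 =
          gn G E[i].1 ^ E[j].2 * gn G E[i].1 ^ E[i].2 := by
        rw [← zpow_add, ← zpow_add, add_comm]
      have hca := hc'.eq
      generalize sp G A = a at hca ⊢
      generalize sp G M = m
      generalize sp G C = c
      generalize gn G E[i].1 ^ E[i].2 = x at hyy ⊢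
      generalize gn G E[i].1 ^ E[j].2 = p at hyy hca ⊢
      calc p * (a * (x * (m * (c * p)))) * p⁻¹ = (p * a) * x * m * c := by group
        _ = a * (p * x) * m * c := by rw [← hca]; group
        _ = a * (x * (p * (m * c))) := by rw [← hyy]; group

theorem conj_gen {h : Raag G} {v : V} (hc : CC h (gn G v)) : IsConj h (gn G v) := by
  obtain ⟨E, h1, h2, h3⟩ := exists_cycRed G h
  have h4 : CC (sp G E) (gn G v) := hc.of_isConj h1
  have h5 : sp G [(v, 1)] = gn G v := by rw [sp_cons, sp_nil, mul_one, zpow_one]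
  match E, h1, h2, h3, h4 with
  | [], _, _, _, h4 =>
    exfalso
    rw [← h5] at h4
    refine not_cc G (E := [(v, 1)]) (E' := []) ?_ ?_ ?_ h4.symm
    · intro i j hij
      exact absurd hij (by
        have := i.isLt
        have := j.isLt
        simp only [List.length_singleton] at *
        omega)
    · intro z hz
      rw [List.mem_singleton.1 hz]
      exact one_ne_zero
    · simp
  | [(u, n)], h1, h2, _, h4 =>
    have h6 : sp G [(u, n)] = gn G u ^ n := by rw [sp_cons, sp_nil, mul_one]
    rw [h6] at h4 h1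
    obtain ⟨rfl, rfl⟩ := cc_one G (h2 (u, n) List.mem_cons_self) h4
    rwa [zpow_one] at h1
  | a :: b :: E, _, h2, h3, h4 =>
    exfalso
    rw [← h5] at h4
    exact not_cc G h3 h2 (by simp) h4

end Pool.Agent.RGL
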