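import Pool.Agent.RGL.Defs

set_option autoImplicit false
set_option linter.unusedSectionVars false

noncomputable section

open Classical

/-!
PACKAGE RGL-WRD. Paths in the set of cuts.
-/

namespace Pool.Agent.RGL

variable {V : Type} (G : SimpleGraph V) {L : ℕ} (y : Fin L → V)

/-- the vector of the numbers of copies -/
private def cv (W : List (Fin L)) : Fin L → ℤ := fun i => (W.count i : ℤ)

private theorem cv_nil : cv ([] : List (Fin L)) = 0 := by
  funext i
  simp [cv]

private theorem cv_cons (i : Fin L) (W : List (Fin L)) :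
    cv (i :: W) = Pi.single i 1 + cv W := by
  funext k
  simp only [cv, List.count_cons, Pi.add_apply]
  by_cases hk : i = k
  · subst hk
    simp [add_comm]
  · simp [hk]

private theorem pth_cut {W : List (Fin L)} {κ : Fin L → ℤ} (h : Pth G y W κ) : Cut G y κ := by
  cases W with
  | nil => exact h
  | cons i W => exact h.1

private theorem pth_append (A B : List (Fin L)) (κ : Fin L → ℤ) :
    Pth G y (A ++ B) κ ↔ Pth G y A κ ∧ Pth G y B (κ + cv A) := by
  induction A generalizing κ with
  | nil =>
    rw [List.nil_append, cv_nil, add_zero]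
    exact ⟨fun h => ⟨pth_cut G y h, h⟩, fun h => h.2⟩
  | cons i A ih =>
    rw [List.cons_append]
    show Cut G y κ ∧ Pth G y (A ++ B) (κ + Pi.single i 1) ↔
      (Cut G y κ ∧ Pth G y A (κ + Pi.single i 1)) ∧ Pth G y B (κ + cv (i :: A))
    rw [ih, cv_cons, add_assoc, and_assoc]

private theorem cut_add_one {κ : Fin L → ℤ} (h : Cut G y κ) : Cut G y (κ + 1) := by
  intro i j hij hn
  have := h i j hij hn
  simp only [Pi.add_apply, Pi.one_apply]
  omega

private theorem pth_add_one (W : List (Fin L)) (κ : Fin L → ℤ) (h : Pth G y W κ) :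
    Pth G y W (κ + 1) := by
  induction W generalizing κ with
  | nil => exact cut_add_one G y h
  | cons i W ih =>
    refine ⟨cut_add_one G y h.1, ?_⟩
    have h2 := ih _ h.2
    rw [add_right_comm] at h2
    exact h2

theorem ok_length {W : List (Fin L)} (h : Ok G y W) : W.length = L := by
  have hp : W.Perm (List.finRange L) := by
    rw [List.perm_iff_count]
    intro a
    rw [h.1 a, List.count_finRange]
  rw [hp.length_eq, List.length_finRange]

private theorem rot_aux (A B : List (Fin L)) (h : Ok G y (A ++ B)) : Ok G y (B ++ A) := by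
  obtain ⟨hc, κ, hκ⟩ := h
  refine ⟨fun i => ?_, κ + cv A, ?_⟩
  · have := hc i
    rw [List.count_append] at this ⊢
    omega
  · rw [pth_append] at hκ ⊢
    refine ⟨hκ.2, ?_⟩
    have e : κ + cv A + cv B = κ + 1 := by
      rw [add_assoc]
      congr 1
      funext i
      have := hc i
      rw [List.count_append] at this
      simp only [cv, Pi.add_apply, Pi.one_apply]
      omega
    rw [e]
    exact pth_add_one G y A κ hκ.1

theorem ok_rot (A B : List (Fin L)) : Ok G y (A ++ B) ↔ Ok G y (B ++ A) :=
  ⟨rot_aux G y A B, rot_aux G y B A⟩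

private theorem swap_aux (A : List (Fin L)) {i j : Fin L} (h : G.Adj (y i) (y j))
    (hO : Ok G y (A ++ [i, j])) : Ok G y (A ++ [j, i]) := by
  obtain ⟨hc, κ, hκ⟩ := hO
  have hij : i ≠ j := by
    rintro rfl
    exact G.irrefl h
  refine ⟨fun k => ?_, κ, ?_⟩
  · have := hc k
    rw [List.count_append] at this ⊢
    rw [← this]
    congr 1
    exact List.Perm.count_eq (List.Perm.swap i j []) k
  · rw [pth_append] at hκ ⊢
    refine ⟨hκ.1, ?_⟩
    set κ' := κ + cv A with hκ'
    obtain ⟨h0, h1, h2⟩ := hκ.2
    have h2' : Cut G y (κ' + Pi.single i 1 + Pi.single j 1) := h2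
    refine ⟨h0, ?_, ?_⟩
    · show Cut G y (κ' + Pi.single j 1)
      intro a b hab hn
      have q0 := h0 a b hab hn
      have q1 := h1 a b hab hn
      have q2 := h2' a b hab hn
      simp only [Pi.add_apply] at q1 q2 ⊢
      by_cases haj : a = j
      · have hai : a ≠ i := fun e => hij (e.symm.trans haj)
        have hbj : b ≠ j := fun e => (lt_irrefl _ (haj.trans e.symm ▸ hab))
        have hbi : b ≠ i := by
          rintro rfl
          apply hn
          rw [haj]
          exact h.symm
        rw [Pi.single_eq_of_ne hai, Pi.single_eq_of_ne hbi] at q2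
        simpa using q2
      · by_cases hbj : b = j
        · have hai : a ≠ i := by
            rintro rfl
            apply hn
            rw [hbj]
            exact h
          have hbi : b ≠ i := fun e => hij (e.symm.trans hbj)
          rw [Pi.single_eq_of_ne hai, Pi.single_eq_of_ne hbi] at q2
          simpa using q2
        · rw [Pi.single_eq_of_ne haj, Pi.single_eq_of_ne hbj]
          simpa using q0
    · show Cut G y (κ' + Pi.single j 1 + Pi.single i 1)
      rw [add_right_comm]
      exact h2'

theorem ok_swap (A : List (Fin L)) {i j : Fin L} (h : G.Adj (y i) (y j)) :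
    Ok G y (A ++ [i, j]) ↔ Ok G y (A ++ [j, i]) :=
  ⟨swap_aux G y A h, swap_aux G y A (h.symm)⟩

theorem ok_same (hy : CycRed G y) (A : List (Fin L)) {i j : Fin L} (h : y i = y j) :
    ¬ Ok G y (A ++ [i, j]) := by
  rintro ⟨hc, κ, hκ⟩
  rcases lt_trichotomy i j with hij | hij | hij
  · rw [pth_append] at hκ
    obtain ⟨-, h0, h1, h2⟩ := hκ
    set κ' := κ + cv A with hκ'
    have h2' : Cut G y (κ' + Pi.single i 1 + Pi.single j 1) := h2
    obtain ⟨⟨k, hik, hkj, hk⟩, -⟩ := hy i j hij h
    have nij : ¬ G.Adj (y i) (y j) := by
      rw [h]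
      exact G.irrefl
    have nik : ¬ G.Adj (y i) (y k) := fun e => hk (e.symm)
    have nkj : ¬ G.Adj (y k) (y j) := by
      rw [← h]
      exact hk
    have a0 := h0 i j hij nij
    have a1 := h1 i j hij nij
    have b0 := h0 i k hik nik
    have b1 := h1 i k hik nik
    have c2 := h2' k j hkj nkj
    simp only [Pi.add_apply, Pi.single_eq_same, Pi.single_eq_of_ne hij.ne',
      Pi.single_eq_of_ne hik.ne', Pi.single_eq_of_ne hkj.ne] at a1 b1 c2
    omega
  · subst hij
    have := hc i
    rw [List.count_append] at this
    simp at this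
  · rw [pth_append] at hκ
    obtain ⟨-, h0, h1, h2⟩ := hκ
    set κ' := κ + cv A with hκ'
    have h2' : Cut G y (κ' + Pi.single i 1 + Pi.single j 1) := h2
    obtain ⟨-, k, hko, hk⟩ := hy j i hij h.symm
    have nji : ¬ G.Adj (y j) (y i) := by
      rw [h]
      exact G.irrefl
    have a0 := h0 j i hij nji
    have a1 := h1 j i hij nji
    simp only [Pi.add_apply, Pi.single_eq_same, Pi.single_eq_of_ne hij.ne] at a1
    rcases hko with hkj | hik
    · have nki : ¬ G.Adj (y k) (y i) := by
        rw [h]
        exact hk
      have hki : k < i := hkj.trans hij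
      have b0 := h0 k j hkj hk
      have c0 := h0 k i hki nki
      have c2 := h2' k j hkj hk
      simp only [Pi.add_apply, Pi.single_eq_same, Pi.single_eq_of_ne hij.ne,
        Pi.single_eq_of_ne hkj.ne, Pi.single_eq_of_ne hki.ne] at c2
      omega
    · have nik : ¬ G.Adj (y i) (y k) := by
        rw [h]
        exact fun e => hk (e.symm)
      have njk : ¬ G.Adj (y j) (y k) := fun e => hk (e.symm)
      have hjk : j < k := hij.trans hik
      have b0 := h0 i k hik nik
      have c2 := h2' j k hjk njk
      simp only [Pi.add_apply, Pi.single_eq_same, Pi.single_eq_of_ne hij.ne,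
        Pi.single_eq_of_ne hjk.ne', Pi.single_eq_of_ne hik.ne'] at c2
      omega

private theorem pth_of_take (W : List (Fin L)) (κ : Fin L → ℤ)
    (h : ∀ n ≤ W.length, Cut G y (κ + cv (W.take n))) : Pth G y W κ := by
  induction W generalizing κ with
  | nil =>
    have h0 := h 0 (Nat.zero_le _)
    rw [List.take_zero, cv_nil, add_zero] at h0
    exact h0
  | cons i W ih =>
    refine ⟨?_, ih _ fun n hn => ?_⟩
    · have h0 := h 0 (Nat.zero_le _)
      rw [List.take_zero, cv_nil, add_zero] at h0
      exact h0
    · have h1 := h (n + 1) (by rw [List.length_cons]; omega)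
      rw [List.take_succ_cons, cv_cons, ← add_assoc] at h1
      exact h1

private theorem cv_take (n : ℕ) (i : Fin L) :
    cv ((List.finRange L).take n) i = if (i : ℕ) < n then 1 else 0 := by
  have hnd : ((List.finRange L).take n).Nodup :=
    (List.nodup_finRange L).sublist (List.take_sublist _ _)
  simp only [cv]
  split_ifs with hi
  · have hm : i ∈ (List.finRange L).take n := by
      rw [List.mem_take_iff_getElem]
      refine ⟨i, ?_, ?_⟩
      · rw [List.length_finRange]
        exact lt_min hi i.2
      · simp
    rw [List.count_eq_one_of_mem hnd hm]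
    rfl
  · have hm : i ∉ (List.finRange L).take n := by
      rw [List.mem_take_iff_getElem]
      rintro ⟨k, hk, e⟩
      rw [List.length_finRange] at hk
      have : (i : ℕ) = k := by
        rw [← e]
        simp
      omega
    rw [List.count_eq_zero_of_not_mem hm]
    rfl

theorem ok_self : Ok G y (List.finRange L) := by
  refine ⟨fun i => ?_, 0, ?_⟩
  · exact List.count_finRange i
  · apply pth_of_take
    intro n hn i j hij hadj
    rw [zero_add, cv_take, cv_take]
    have hij' : (i : ℕ) < (j : ℕ) := hij
    split_ifs <;> omega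

end Pool.Agent.RGL
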